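import Pool.Agent.Lib.MP_945667_co.H22Sched

/-!
Routes given by edge relations, and the three-peg boxes inside a Hanoi graph.
-/

namespace Pool.Agent.Lib.MP_945667_co

open Pool.Agent.Lib.MP_25cd9a_co

section Geo

open Set

variable {V : Type} {G : SimpleGraph V}

/-- Reachability along allowed edges. -/
def RE (G : SimpleGraph V) (E : V → V → Prop) : V → V → Prop :=
  Relation.ReflTransGen fun a b => G.Adj a b ∧ E a b

theorem RE.mono {E E' : V → V → Prop} (h : ∀ x y, E x y → E' x y) {a b : V} (hr : RE G E a b) :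
    RE G E' a b := by
  induction hr with
  | refl => exact .refl
  | tail _ hb ih => exact ih.tail ⟨hb.1, h _ _ hb.2⟩

theorem RE.trans {E : V → V → Prop} {a b c : V} (h : RE G E a b) (h' : RE G E b c) : RE G E a c :=
  Relation.ReflTransGen.trans h h'

theorem RE.map {W : Type} {H : SimpleGraph W} {E : V → V → Prop} {E' : W → W → Prop} (φ : V → W)
    (h : ∀ x y, G.Adj x y → E x y → H.Adj (φ x) (φ y) ∧ E' (φ x) (φ y)) {a b : V}
    (hr : RE G E a b) : RE H E' (φ a) (φ b) := by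
  induction hr with
  | refl => exact .refl
  | tail _ hb ih => exact ih.tail (h _ _ hb.1 hb.2)

/-- In every system of nine routes whose independent members are vertex-disjoint, two independent
routes use a pair of edges in `C`. -/
def K33E (G : SimpleGraph V) (C : Finset (Sym2 V × Sym2 V)) : Prop :=
  ∀ (s t : Fin 3 → V) (E : Fin 3 → Fin 3 → V → V → Prop) (R : Fin 3 → Fin 3 → Set V),
    (∀ i k, s i ∈ R i k ∧ RE G (E i k) (s i) (t k) ∧
      ∀ x y, E i k x y → E i k y x ∧ x ∈ R i k) →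
    (∀ i j k l, i < j → k ≠ l → ∀ x ∈ R i k, x ∉ R j l) → ∃ i j k l, i < j ∧ k ≠ l ∧
      ∃ c ∈ C, (c.1.out.1 ≠ c.1.out.2 ∧ E i k c.1.out.1 c.1.out.2) ∧
        c.2.out.1 ≠ c.2.out.2 ∧ E j l c.2.out.1 c.2.out.2

theorem Drawing.curveE (D : Drawing G) {E : V → V → Prop} {R : Set V} {a b : V} (ha : a ∈ R)
    (h : RE G E a b) (hE : ∀ x y, E x y → E y x ∧ x ∈ R) :
    ∃ K, IsCompact K ∧ IsPreconnected K ∧ D.pos a ∈ K ∧ D.pos b ∈ K ∧ ∀ x ∈ K,
      (∃ v ∈ R, D.pos v = x) ∨ ∃ e : G.edgeSet, (∀ v ∈ e.1, v ∈ R) ∧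
        (e.1.out.1 ≠ e.1.out.2 ∧ E e.1.out.1 e.1.out.2) ∧ x ∈ D.arc e '' Ioo 0 1 := by
  induction h with
  | refl => exact ⟨{D.pos a}, isCompact_singleton, isPreconnected_singleton, rfl, rfl,
      fun x hx => Or.inl ⟨a, ha, hx.symm⟩⟩
  | @tail b c _ hbc ih =>
    obtain ⟨K, h1, h2, h3, h4, h5⟩ := ih
    let e : G.edgeSet := ⟨s(b, c), hbc.1⟩
    have he : ∀ v ∈ e.1, v ∈ R := fun v hv => by
      rcases Sym2.mem_iff.1 hv with rfl | rfl
      exacts [(hE _ _ hbc.2).2, (hE _ _ (hE _ _ hbc.2).1).2]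
    have he' : e.1.out.1 ≠ e.1.out.2 ∧ E e.1.out.1 e.1.out.2 := by
      rcases Sym2.eq_iff.1 (show s(e.1.out.1, e.1.out.2) = s(b, c) from e.1.out_eq) with h | h <;>
        rw [h.1, h.2]
      exacts [⟨hbc.1.ne, hbc.2⟩, ⟨hbc.1.ne', (hE _ _ hbc.2).1⟩]
    refine ⟨K ∪ D.arc e '' Icc 0 1, h1.union (isCompact_Icc.image_of_continuousOn (D.cont e)),
      h2.union _ h4 (D.end_mem e (Sym2.mem_mk_left _ _)) (isPreconnected_Icc.image _ (D.cont e)),
      Or.inl h3, Or.inr (D.end_mem e (Sym2.mem_mk_right _ _)), ?_⟩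
    rintro x (hx | hx)
    · exact h5 x hx
    · rcases D.inner e hx with h6 | ⟨v, hv, h6⟩
      exacts [Or.inr ⟨e, he, he', h6⟩, Or.inl ⟨v, he v hv, h6⟩]

theorem Drawing.exists_k33E [Finite V] (D : Drawing G) :
    ∃ C, K33E G C ∧ C.card ≤ 2 * D.crossings := by
  classical
  have := Fintype.ofFinite V
  refine ⟨Finset.univ.filter fun c => ∃ e f : G.edgeSet, e ≠ f ∧ c = (e.1, f.1) ∧
    (D.arc e '' Ioo 0 1 ∩ D.arc f '' Ioo 0 1).Nonempty, fun s t E R hR hn => ?_, ?_⟩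
  · choose K h1 h2 h3 h4 h5 using fun i : Fin 3 × Fin 3 =>
      D.curveE (hR i.1 i.2).1 (hR i.1 i.2).2.1 (hR i.1 i.2).2.2
    obtain ⟨i, j, k, l, hij, hkl, x, hx, hx'⟩ := plane_k33 (D.pos ∘ s) (D.pos ∘ t) K h1 h2
      (fun i k => h3 (i, k)) fun i k => h4 (i, k)
    refine ⟨i, j, k, l, hij, hkl, ?_⟩
    replace hn := hn i j k l hij hkl
    have key : ∀ (v : V) (e : G.edgeSet), D.pos v ∈ D.arc e '' Ioo 0 1 → v ∈ e.1 := fun v e h =>
      by_contra fun hv => D.avoid e v hv (image_mono Ioo_subset_Icc_self h)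
    rcases h5 _ x hx with ⟨v, hv, rfl⟩ | ⟨e, he, he', h6⟩ <;>
      rcases h5 _ _ hx' with ⟨w, hw, h7⟩ | ⟨f, hf, hf', h7⟩
    · exact (hn v hv (D.pos_inj h7 ▸ hw)).elim
    · exact (hn v hv (hf v (key v f h7))).elim
    · exact (hn w (he w (key w e (h7 ▸ h6))) hw).elim
    · refine ⟨(e.1, f.1), Finset.mem_filter.2 ⟨Finset.mem_univ _, e, f, ?_, rfl, x, h6, h7⟩,
        he', hf'⟩
      rintro rfl
      exact hn _ (he _ e.1.out_fst_mem) (hf _ e.1.out_fst_mem)
  · rw [Drawing.crossings, ncard_eq_toFinset_card _ D.finite_cross]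
    refine (Finset.card_le_mul_card_image_of_maps_to (f := fun c => s(c.1, c.2))
      (t := D.finite_cross.toFinset.image fun c => c.1.map Subtype.val) ?_ 2 ?_).trans
      (Nat.mul_le_mul_left 2 Finset.card_image_le)
    · simp only [Finset.mem_filter, Finset.mem_univ, true_and, Finset.mem_image,
        Finite.mem_toFinset]
      rintro - ⟨e, f, h, rfl, x, h1, h2⟩
      refine ⟨(s(e, f), x), ⟨fun h' => h (Sym2.mk_isDiag_iff.1 h'), fun g hg => ?_⟩, rfl⟩
      rcases Sym2.mem_iff.1 hg with rfl | rfl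
      exacts [h1, h2]
    · intro b _
      induction b using Sym2.ind with
      | _ e f =>
        refine (Finset.card_le_card (t := {(e, f), (f, e)}) fun c hc => ?_).trans Finset.card_le_two
        rcases Sym2.eq_iff.1 (Finset.mem_filter.1 hc).2 with ⟨rfl, rfl⟩ | ⟨rfl, rfl⟩ <;> simp

end Geo

open Finset Equiv
open Fin hiding sum_const prod_const

variable {p d : ℕ}

theorem bx_conn (W : Fin p → Prop) (hW : ∀ b b', ∃ c, W c ∧ c ≠ b ∧ c ≠ b') :
    ∀ (d : ℕ) (U : Fin d → Prop) (y : Fin d → Fin p), (∀ i j, j < i → U j → ¬U i → ¬W (y i)) →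
      ∀ z ∈ {z | ∀ i, (U i → W (z i)) ∧ (¬U i → z i = y i)},
      ∀ z' ∈ {z | ∀ i, (U i → W (z i)) ∧ (¬U i → z i = y i)},
        Rch (hanoi p d) {z | ∀ i, (U i → W (z i)) ∧ (¬U i → z i = y i)} z z'
  | 0, _, _, _, z, _, z', _ => Subsingleton.elim z z' ▸ Rch.refl _ _
  | d + 1, U, y, h, z, hz, z', hz' => by
    classical
    have ih := bx_conn W hW d (tail U) (tail y) fun i j hij => h _ _ (succ_lt_succ_iff.2 hij)
    have lift : ∀ x ∈ {z : Fin (d + 1) → Fin p | ∀ i, (U i → W (z i)) ∧ (¬U i → z i = y i)},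
        ∀ w ∈ {z : Fin d → Fin p | ∀ i, (tail U i → W (z i)) ∧ (¬tail U i → z i = tail y i)},
        (cons (x 0) w : Fin (d + 1) → Fin p) ∈
          {z : Fin (d + 1) → Fin p | ∀ i, (U i → W (z i)) ∧ (¬U i → z i = y i)} :=
      fun x hx w hw => Fin.cases (hx 0) hw
    rw [← cons_self_tail z, ← cons_self_tail z']
    by_cases e : z 0 = z' 0
    · rw [← e]
      exact rch_cons _ (lift z hz) (ih _ (fun i => hz i.succ) _ fun i => hz' i.succ)
    have h0 : U 0 := by_contra fun h0 => e (((hz 0).2 h0).trans ((hz' 0).2 h0).symm)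
    obtain ⟨c, h1, h2, h3⟩ := hW (z 0) (z' 0)
    have hx : (fun i => if tail U i then c else tail y i) ∈
        {z : Fin d → Fin p | ∀ i, (tail U i → W (z i)) ∧ (¬tail U i → z i = tail y i)} :=
      fun i => ⟨fun h => by simpa only [h, if_true], fun h => if_neg h⟩
    refine ((rch_cons _ (lift z hz) (ih _ (fun i => hz i.succ) _ hx)).trans
      (Rch.step (adj_cons e fun i => ?_) (lift z hz _ hx) (lift z' hz' _ hx))).trans
      (rch_cons _ (lift z' hz') (ih _ hx _ fun i => hz' i.succ))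
    by_cases h4 : tail U i
    · simpa only [h4, if_true] using ⟨h2, h3⟩
    · have h5 := h i.succ 0 (succ_pos _) h0 h4
      simp only [h4, if_false]
      exact ⟨fun e => h5 (e ▸ (hz 0).1 h0 :), fun e => h5 (e ▸ (hz' 0).1 h0 :)⟩

/-- One of three pegs. -/
def Tri (a u v c : Fin p) : Prop := c = a ∨ c = u ∨ c = v

/-- The disks from `g` on that lie on peg `a` in the state `y` are placed on `a`, `u`, `v`. -/
def Box (g : ℕ) (a u v : Fin p) (y : Fin d → Fin p) : Set (Fin d → Fin p) :=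
  {z | ∀ i, (g ≤ i.val ∧ y i = a → Tri a u v (z i)) ∧ (¬(g ≤ i.val ∧ y i = a) → z i = y i)}

theorem box_self (g : ℕ) (a u v : Fin p) (y : Fin d → Fin p) : y ∈ Box g a u v y :=
  fun _ => ⟨fun h => .inl h.2, fun _ => rfl⟩

theorem box_rch {g : ℕ} {a u v : Fin p} {y z z' : Fin d → Fin p} (h : Av u v y) (hu : a ≠ u)
    (hv : a ≠ v) (hz : z ∈ Box g a u v y) (hz' : z' ∈ Box g a u v y) :
    RE (hanoi p d) (fun x x' => x ∈ Box g a u v y ∧ x' ∈ Box g a u v y) z z' := by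
  refine bx_conn (Tri a u v) (fun b b' => ?_) d _ y (fun i j hij h1 h2 => ?_) z hz z' hz'
  · have := h.1
    unfold Tri
    by_cases h1 : a ≠ b ∧ a ≠ b'
    · exact ⟨a, .inl rfl, h1⟩
    by_cases h2 : u ≠ b ∧ u ≠ b'
    · exact ⟨u, .inr (.inl rfl), h2⟩
    exact ⟨v, .inr (.inr rfl), by grind⟩
  · have := h.2 i
    have := Fin.lt_def.1 hij
    unfold Tri
    grind

/-- The state from which a box is entered. -/
def rc (g : ℕ) (a u v : Fin p) (z : Fin d → Fin p) (i : Fin d) : Fin p :=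
  if g ≤ i.val ∧ (z i = a ∨ z i = u ∨ z i = v) then a else z i

theorem box_uniq {g : ℕ} {a u v : Fin p} {y z : Fin d → Fin p} (h : Av u v y)
    (hz : z ∈ Box g a u v y) : y = rc g a u v z := funext fun i => by
  have := h.2 i
  have := hz i
  unfold rc Tri at *
  grind

theorem box_type {g : ℕ} {a u v : Fin p} {y z z' : Fin d → Fin p} (hz : z ∈ Box g a u v y)
    (hz' : z' ∈ Box g a u v y) {i : Fin d} (h : z i ≠ z' i) :
    Tri a u v (z i) ∧ Tri a u v (z' i) := by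
  have := hz i
  have := hz' i
  grind

theorem tower {a u v : Fin p} {y : Fin d → Fin p} (h : Av u v y) (hv : a ≠ v) :
    RE (hanoi p d) (fun x x' => x ∈ Box 0 a u v y ∧ x' ∈ Box 0 a u v y) y (swap a u ∘ y) := by
  by_cases hu : a = u
  · rw [hu, swap_self]
    exact Relation.ReflTransGen.refl
  refine box_rch h hu hv (box_self _ _ _ _ _) fun i => ?_
  have := h.2 i
  simp only [Function.comp, swap_apply_def, Tri]
  grind

theorem ind_eq_le {α : Type} [Fintype α] (P : α → Prop) (Q : Prop) (a : α)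
    (h : ∀ b, P b → b = a ∧ Q) : ∑ b, ind (P b) ≤ ind Q :=
  (sum_le_sum fun b _ => (ind_mono (h b)).trans_eq (ind_and _ _)).trans_eq (sum_ind_eq _ _)

theorem sum_comp_le {α β : Type} [Fintype α] [Fintype β] {f : α → β} (hf : f.Injective)
    (g : β → ℕ) : ∑ a, g (f a) ≤ ∑ b, g b := by
  classical
  rw [← sum_image (s := univ) fun _ _ _ _ h => hf h]
  exact sum_le_sum_of_subset (subset_univ _)

theorem conv (d : ℕ) (u v a b : Fin p) :
    ∃ (π : Perm (Fin p)) (E : (Fin d → Fin p) → (Fin d → Fin p) → (Fin d → Fin p) → Prop),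
      (∀ y x x', E y x x' → E y x' x) ∧ (a ≠ b → ∀ y, Av u v y →
        Av a b (π ∘ y) ∧ RE (hanoi p d) (E y) y (π ∘ y)) ∧
      ∀ z z' i, z i ≠ z' i → ∑ y, ind (Av u v y ∧ E y z z') ≤
        2 * ind (((z i = u ∨ z i = v) ∨ z i = a ∨ z i = b) ∧
          ((z' i = u ∨ z' i = v) ∨ z' i = a ∨ z' i = b)) := by
  wlog h : u ≠ v → a ≠ v generalizing u v
  · push Not at h
    obtain ⟨π, E, h1, h2, h3⟩ := this v u fun h' => h.2 ▸ h'
    refine ⟨π, E, h1, fun hab y hy => h2 hab y hy.symm, fun z z' i hi => ?_⟩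
    refine le_trans (sum_le_sum fun y _ => ind_mono fun h => ⟨h.1.symm, h.2⟩) ((h3 z z' i hi).trans
      (Nat.mul_le_mul_left _ (ind_mono ?_)))
    simp only [or_comm (a := _ = v), imp_self]
  refine ⟨swap b v * swap a u, fun y x x' => (x ∈ Box 0 a u v y ∧ x' ∈ Box 0 a u v y) ∨
    (x ∈ Box 0 b v a (swap a u ∘ y) ∧ x' ∈ Box 0 b v a (swap a u ∘ y)),
    fun y x x' => Or.imp And.symm And.symm, fun hab y hy => ?_, fun z z' i hi => ?_⟩
  · have h1 := (hy.swap (h hy.1)).symm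
    exact ⟨(h1.swap hab.symm).symm, ((tower hy (h hy.1)).mono fun _ _ => .inl).trans
      ((tower h1 hab.symm).mono fun _ _ => .inr)⟩
  · simp only [and_or_left]
    refine (sum_le_sum fun y _ => ind_or _ _).trans ?_
    rw [sum_add_distrib, two_mul]
    refine add_le_add (ind_eq_le _ _ (rc 0 a u v z) fun y hy => ⟨box_uniq hy.1 hy.2.1, ?_⟩)
      (ind_eq_le _ _ (swap a u ∘ rc 0 b v a z) fun y hy => ⟨?_, ?_⟩)
    · have := box_type hy.2.1 hy.2.2 hi
      unfold Tri at this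
      grind
    · rw [← box_uniq (hy.1.swap (h hy.1.1)).symm hy.2.1]
      exact funext fun i => (swap_apply_self _ _ _).symm
    · have := box_type hy.2.1 hy.2.2 hi
      unfold Tri at this
      grind

end Pool.Agent.Lib.MP_945667_co
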