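import Pool.Agent.Lib.MP_945667_co.H22Stage

/-!
Routes to independent random targets whose edge load is optimal up to an absolute constant.
-/

namespace Pool.Agent.Lib.MP_945667_co

open Finset Equiv Pool.Agent.Lib.MP_25cd9a_co
open Fin hiding sum_const prod_const

variable {p q K m n : ℕ}

/-- A system of routes from the states with two free pegs to a family of targets. -/
def Flow (n p d : ℕ) : Prop :=
  ∃ (T : Type) (_ : Fintype T) (_ : Nonempty T) (tgt : T → Fin d → Fin p)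
    (E : Fin p → Fin p → (Fin d → Fin p) → T → (Fin d → Fin p) → (Fin d → Fin p) → Prop),
    (∀ u v y τ x x', E u v y τ x x' → E u v y τ x' x) ∧
    (∀ u v y τ, Av u v y → RE (hanoi p d) (E u v y τ) y (tgt τ)) ∧
    ∀ u v z z' i, z i ≠ z' i → n ^ 2 * ∑ τ, ∑ y, ind (Av u v y ∧ E u v y τ z z') ≤
      Fintype.card T * (2 * (ph n u v (z i) * ph n u v (z' i)) + 2271 * p)

theorem flow_zero : Flow n p 0 :=
  ⟨Unit, inferInstance, inferInstance, fun _ => default, fun _ _ _ _ _ _ => True,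
    fun _ _ _ _ _ _ h => h, fun _ _ y _ _ => Subsingleton.elim y default ▸ .refl,
    fun _ _ _ _ i => i.elim0⟩

theorem adj_append (t : Fin K → Fin p) {x x' : Fin m → Fin p} (h : (hanoi p m).Adj x x') :
    (hanoi p (K + m)).Adj (append t x) (append t x') := by
  obtain ⟨j, h1, h2, h3⟩ := h
  refine ⟨natAdd K j, by simpa using h1, (forall_fin_add _).2 ⟨fun i _ => by simp, fun i hi => ?_⟩,
    (forall_fin_add _).2 ⟨fun i hi => ?_, fun i hi => ?_⟩⟩
  · simpa using h2 i fun e => hi (e ▸ rfl)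
  · have := i.2
    simp only [Fin.lt_def, val_natAdd, val_castAdd] at hi
    omega
  · simpa using h3 i (Nat.lt_of_add_lt_add_left hi)

theorem chg (π : Perm (Fin p)) (Q : (Fin K → Fin p) → (Fin m → Fin p) → Prop) :
    ∑ y : Fin (K + m) → Fin p, ind (Q (fun l => π (y (castAdd m l))) fun l => π (y (natAdd K l))) ≤
      ∑ w, ∑ y, ind (Q w y) := by
  rw [← Fintype.sum_prod_type']
  exact sum_comp_le ((appendEquiv K m).symm.injective.comp π.injective.comp_left)
    fun r => ind (Q r.1 r.2)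

theorem av_count (a b : Fin (q + 2)) : ∑ w : Fin K → Fin (q + 2), ind (Av a b w) ≤ q ^ K := by
  classical
  by_cases h : a = b
  · simp [ind, Av, h]
  rw [sum_ind, show univ.filter (fun x : Fin K → Fin (q + 2) => Av a b x) =
    Fintype.piFinset fun _ => {a, b}ᶜ by ext; simp [Av, h], Fintype.card_piFinset_const,
    card_compl, card_pair h]
  simp

theorem stage_total (h : 6 * K ≤ p) {z z' : Fin (K + m) → Fin p} {i : Fin (K + m)}
    (hi : z i ≠ z' i) : ∑ t : Fin K → Fin p, ∑ r : Fin p × Fin p, ∑ w, ∑ y : Fin m → Fin p,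
      ind (Av r.1 r.2 w ∧ Av r.1 r.2 t ∧ Av r.1 r.2 y ∧ Es r.1 r.2 w t y z z') ≤
        504 * p * p ^ K := by
  rw [sum_comm, sum_congr rfl fun r _ => sum_comm]
  refine Nat.le_of_mul_le_mul_left ?_ (show 0 < p + 4 by omega)
  rw [mul_sum]
  refine (sum_le_sum fun r _ => stage_load r.1 r.2 hi).trans ?_
  rw [← sum_mul, Fintype.sum_prod_type]
  refine (Nat.mul_le_mul (tri_count hi) (Nat.mul_le_mul_left _ (pow_four h))).trans ?_
  nlinarith [Nat.mul_le_mul_right (p * p ^ K) (show 432 * (K + p) ≤ 504 * (p + 4) by omega)]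

theorem flow_step (h0 : 6 ≤ n) (h6 : 6 * n ≤ q + 2) (h7 : q + 2 ≤ 7 * n) (hK : K ≤ n)
    (hm : K = n ∨ m = 0) : Flow n (q + 2) m → Flow n (q + 2) (K + m) := by
  rintro ⟨T, _, _, tgt, E, e1, e2, e3⟩
  have : NeZero n := ⟨by omega⟩
  choose F F1 F2 using fun t : Fin K → Fin (q + 2) => exists_inj (k := n + n) (univ.image t)
    (by have := card_image_le (s := univ) (f := t); rw [card_univ, Fintype.card_fin] at this; omega)
  let f := fun t c => F t (castAdd n c)
  let g := fun t c => F t (natAdd n c)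
  have hf : ∀ t, (f t).Injective := fun t => (F1 t).comp (castAdd_injective _ _)
  have hg : ∀ t, (g t).Injective := fun t => (F1 t).comp (natAdd_injective _ _)
  have av : ∀ t c c', Av (f t c) (g t c') t := fun t c c' =>
    ⟨fun h => by have := congrArg Fin.val (F1 t h); have := c.2; simp at *; omega,
      fun l => ⟨fun h => F2 t _ (mem_image.2 ⟨l, mem_univ l, h⟩),
        fun h => F2 t _ (mem_image.2 ⟨l, mem_univ l, h⟩)⟩⟩
  choose π Ec c1 c2 c3 using conv (p := q + 2) (K + m)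
  let L : Fin (q + 2) → Fin (q + 2) → (Fin K → Fin (q + 2)) → (Fin m → Fin (q + 2)) → T →
      (Fin (K + m) → Fin (q + 2)) → (Fin (K + m) → Fin (q + 2)) → Prop := fun a b t y τ x x' =>
    t = (fun l => x (castAdd m l)) ∧ t = (fun l => x' (castAdd m l)) ∧
      E a b y τ (fun l => x (natAdd K l)) fun l => x' (natAdd K l)
  have key : ∀ u v a b (t : Fin K → Fin (q + 2)) y, Av a b t → Av u v y →
      Av a b (fun l => π u v a b (y (castAdd m l))) ∧ Av a b fun l => π u v a b (y (natAdd K l)) :=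
    fun u v a b t y h h' => ⟨(c2 u v a b h.1 y h').1.comp _, (c2 u v a b h.1 y h').1.comp _⟩
  refine ⟨(Fin K → Fin (q + 2)) × (Fin n × Fin n) × T, inferInstance, inferInstance,
    fun τ => append τ.1 (tgt τ.2.2), fun u v y τ x x' =>
      Ec u v (f τ.1 τ.2.1.1) (g τ.1 τ.2.1.2) y x x' ∨ Es (f τ.1 τ.2.1.1) (g τ.1 τ.2.1.2)
        (fun l => π u v (f τ.1 τ.2.1.1) (g τ.1 τ.2.1.2) (y (castAdd m l))) τ.1
        (fun l => π u v (f τ.1 τ.2.1.1) (g τ.1 τ.2.1.2) (y (natAdd K l))) x x' ∨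
      L (f τ.1 τ.2.1.1) (g τ.1 τ.2.1.2) τ.1
        (fun l => π u v (f τ.1 τ.2.1.1) (g τ.1 τ.2.1.2) (y (natAdd K l))) τ.2.2 x x',
    fun u v y τ x x' => Or.imp (c1 _ _ _ _ _ _ _) (Or.imp
      (fun ⟨j, δ, h1, h2, h3⟩ => ⟨j, δ, h1, h3, h2⟩) fun h => ⟨h.2.1, h.1, e1 _ _ _ _ _ _ h.2.2⟩),
    fun u v y ⟨t, ω, τ⟩ hy => ?_, fun u v z z' i hi => ?_⟩
  · have h1 := key u v _ _ t y (av t ω.1 ω.2) hy
    have h2 := (c2 u v _ _ (av t ω.1 ω.2).1 y hy).2
    rw [← append_castAdd_natAdd (f := _ ∘ y)] at h2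
    exact ((h2.mono fun _ _ => .inl).trans ((stage_rch h1.1 (av t ω.1 ω.2) h1.2).mono
      fun _ _ h => .inr (.inl h))).trans ((e2 _ _ _ τ h1.2).map (append t) fun x x' h h' =>
        ⟨adj_append t h, .inr (.inr (by simpa [L] using h'))⟩)
  simp only [and_or_left, Fintype.sum_prod_type (α₁ := Fin K → Fin (q + 2)),
    Fintype.sum_prod_type (α₂ := T), Fintype.card_prod, Fintype.card_fun, Fintype.card_fin]
  refine (Nat.mul_le_mul_left _ (sum_le_sum fun t _ => sum_le_sum fun ω _ => sum_le_sum fun τ _ =>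
    sum_le_sum fun y _ => (ind_or _ _).trans (Nat.add_le_add_left (ind_or _ _) _))).trans ?_
  simp only [sum_add_distrib]
  have hA := (sum_le_sum fun t (_ : t ∈ univ) => (sum_le_sum fun (ω : Fin n × Fin n)
    (_ : ω ∈ univ) => sum_le_card_nsmul (univ : Finset T) _ _ fun τ _ =>
      c3 u v (f t ω.1) (g t ω.2) z z' i hi).trans (show _ ≤ Fintype.card T *
        (2 * (ph n u v (z i) * ph n u v (z' i))) by
      simp only [card_univ, smul_eq_mul, ← mul_sum]
      exact Nat.mul_le_mul_left _ (Nat.mul_le_mul_left _ (four_count (hf t) (hg t) hi u v))))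
  have hB := (sum_le_sum fun t (_ : t ∈ univ) => (sum_le_sum fun (ω : Fin n × Fin n)
    (_ : ω ∈ univ) => sum_le_card_nsmul (univ : Finset T) _ _ fun τ _ =>
      (sum_le_sum fun y _ => ind_mono fun (h : Av u v y ∧ _) => ⟨(key u v _ _ t y (av t ω.1 ω.2)
        h.1).1, av t ω.1 ω.2, (key u v _ _ t y (av t ω.1 ω.2) h.1).2, h.2⟩).trans
      (chg (π u v (f t ω.1) (g t ω.2)) fun w y => Av (f t ω.1) (g t ω.2) w ∧
        Av (f t ω.1) (g t ω.2) t ∧ Av (f t ω.1) (g t ω.2) y ∧
          Es (f t ω.1) (g t ω.2) w t y z z')).trans (show _ ≤ Fintype.card T * _ by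
      simp only [card_univ, smul_eq_mul, ← mul_sum]
      exact Nat.mul_le_mul_left _ (sum_comp_le ((hf t).prodMap (hg t)) fun r => ∑ w, ∑ y,
        ind (Av r.1 r.2 w ∧ Av r.1 r.2 t ∧ Av r.1 r.2 y ∧ Es r.1 r.2 w t y z z')))).trans
    ((mul_sum _ _ _).symm.trans_le (Nat.mul_le_mul_left _ (stage_total (by omega) hi)))
  have hC : 9 * (n ^ 2 * ∑ t, ∑ ω : Fin n × Fin n, ∑ τ, ∑ y, ind (Av u v y ∧
      L (f t ω.1) (g t ω.2) t (fun l => π u v (f t ω.1) (g t ω.2) (y (natAdd K l))) τ z z')) ≤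
      7 * (q + 2) ^ K * (Fintype.card T * (n ^ 2 * (28 + 2271 * (q + 2)))) := by
    induction i using Fin.addCases with
    | left l =>
      rw [sum_eq_zero, mul_zero, mul_zero]
      · exact Nat.zero_le _
      exact fun t _ => sum_eq_zero fun ω _ => sum_eq_zero fun τ _ => sum_eq_zero
        fun y _ => if_neg fun h => hi (congrFun (h.2.1.symm.trans h.2.2.1) l)
    | right l =>
      obtain rfl : K = n := hm.resolve_right fun h => (h ▸ l).elim0
      refine le_trans ?_ (Nat.mul_le_mul_right _ (pow_decay (by omega) (by omega)))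
      rw [mul_assoc, ← sum_ind_eq (fun l => z (castAdd m l)) (q ^ K * _), mul_sum]
      refine Nat.mul_le_mul_left _ (sum_le_sum fun t _ => ?_)
      by_cases ht : t = fun l => z (castAdd m l)
      swap
      · simp [L, ht, ind]
      rw [show ind (t = fun l => z (castAdd m l)) = 1 from if_pos ht, one_mul, mul_sum]
      refine (sum_le_sum fun ω _ => show _ ≤ q ^ K * (Fintype.card T * (2 * (ph K (f t ω.1)
        (g t ω.2) (z (natAdd K l)) * ph K (f t ω.1) (g t ω.2) (z' (natAdd K l))) +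
          2271 * (q + 2))) from ?_).trans ?_
      · refine le_trans ?_ (Nat.mul_le_mul (av_count (f t ω.1) (g t ω.2)) (e3 (f t ω.1) (g t ω.2)
          (fun l => z (natAdd K l)) (fun l => z' (natAdd K l)) l hi))
        rw [mul_left_comm]
        refine Nat.mul_le_mul_left _ ?_
        rw [mul_sum]
        refine sum_le_sum fun τ _ => ?_
        simp only [sum_mul_sum, ← ind_and]
        exact (sum_le_sum fun y _ => ind_mono fun h => ⟨(key u v _ _ t y (av t ω.1 ω.2) h.1).1,
          (key u v _ _ t y (av t ω.1 ω.2) h.1).2, h.2.2.2⟩).trans (chg _ fun w y =>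
            Av (f t ω.1) (g t ω.2) w ∧ Av (f t ω.1) (g t ω.2) y ∧ E (f t ω.1) (g t ω.2) y τ _ _)
      · simp only [← mul_sum, sum_add_distrib, sum_const, card_univ, Fintype.card_prod,
          Fintype.card_fin, smul_eq_mul]
        refine Nat.mul_le_mul_left _ (Nat.mul_le_mul_left _ ?_)
        nlinarith [ph_sum (hf t) (hg t) hi]
  simp only [sum_const, card_univ, Fintype.card_fun, Fintype.card_fin, smul_eq_mul] at hA hB ⊢
  nlinarith [Nat.mul_le_mul_left (n ^ 2) hA, Nat.mul_le_mul_left (n ^ 2) hB,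
    Nat.mul_le_mul_left ((q + 2) ^ K * Fintype.card T * n ^ 2)
      (show 196 ≤ 6 * (q + 2) by omega)]

theorem flow (h0 : 6 ≤ n) (h6 : 6 * n ≤ q + 2) (h7 : q + 2 ≤ 7 * n) (d : ℕ) :
    Flow n (q + 2) d := by
  induction d using Nat.strong_induction_on with
  | _ d ih =>
    by_cases h : d ≤ n
    · exact flow_step (m := 0) h0 h6 h7 h (.inr rfl) flow_zero
    obtain ⟨m, rfl⟩ := Nat.exists_eq_add_of_le (not_le.1 h).le
    exact flow_step h0 h6 h7 le_rfl (.inl rfl) (ih m (by omega))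

end Pool.Agent.Lib.MP_945667_co
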