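import Pool.Agent.Lib.MP_945667_co.H98Upper

/-!
The order in which the disks of one window are moved, and the number of source-target pairs
that pass through a given state.
-/

namespace Pool.Agent.Lib.MP_945667_co

open Finset

variable {p K : ℕ}

/-- The number of disks with source `y` plus the number of disks with target `y`. -/
noncomputable def dg (s t : Fin K → Fin p) (y : Fin p) : ℕ := ∑ i, (ind (s i = y) + ind (t i = y))

/-- The peg of larger degree. -/
def asg (D : Fin p → ℕ) (b c : Fin p) : Fin p := if D b < D c ∨ (D b = D c ∧ b ≤ c) then c else b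

theorem asg_comm (D : Fin p → ℕ) (b c : Fin p) : asg D b c = asg D c b := by
  unfold asg
  split_ifs <;> omega

theorem asg_spec (D : Fin p → ℕ) (b c : Fin p) :
    (asg D b c = b ∨ asg D b c = c) ∧ D b ≤ D (asg D b c) := by
  unfold asg
  split_ifs <;> omega

/-- The peg to which a disk is assigned. -/
noncomputable def slot (s t : Fin K → Fin p) (i : Fin K) : Fin p := asg (dg s t) (s i) (t i)

/-- The rank inside a slot: departures first (small disks first), then arrivals. -/
noncomputable def sub (s t : Fin K → Fin p) (i : Fin K) : ℕ :=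
  if s i = slot s t i then K - 1 - i else K + i

/-- The time at which a disk moves. -/
noncomputable def key (s t : Fin K → Fin p) (i : Fin K) : ℕ := slot s t i * (2 * K) + sub s t i

/-- The state at time `κ`. -/
noncomputable def st (s t : Fin K → Fin p) (κ : ℕ) (i : Fin K) : Fin p :=
  if key s t i < κ then t i else s i

/-- The complementary state at time `κ`. -/
noncomputable def co (s t : Fin K → Fin p) (κ : ℕ) (i : Fin K) : Fin p :=
  if key s t i < κ then s i else t i

theorem sub_lt (s t : Fin K → Fin p) (i : Fin K) : sub s t i < 2 * K := by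
  have := i.2
  unfold sub
  split_ifs <;> omega

theorem key_lt_of {s t : Fin K → Fin p} {i j : Fin K} (h : slot s t i < slot s t j) :
    key s t i < key s t j := by
  have h1 := sub_lt s t i
  have h2 := Nat.mul_le_mul_right (2 * K) (Nat.succ_le_of_lt (Fin.lt_def.1 h))
  unfold key
  nlinarith

theorem key_inj (s t : Fin K → Fin p) : (key s t).Injective := fun i j h => by
  rcases lt_trichotomy (slot s t i) (slot s t j) with h1 | h1 | h1
  · exact ((key_lt_of h1).ne h).elim
  · have h2 := i.2
    have h3 := j.2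
    simp only [key, h1, add_right_inj, sub] at h
    split_ifs at h <;> omega
  · exact ((key_lt_of h1).ne' h).elim

theorem key_bound (s t : Fin K → Fin p) (i : Fin K) : key s t i < p * (2 * K) := by
  have h1 := sub_lt s t i
  have h2 := Nat.mul_le_mul_right (2 * K) (Nat.succ_le_of_lt (slot s t i).2)
  unfold key
  nlinarith

theorem dg_st (s t : Fin K → Fin p) (κ : ℕ) : dg (st s t κ) (co s t κ) = dg s t := by
  funext y
  refine sum_congr rfl fun i _ => ?_
  unfold st co
  split_ifs
  exacts [add_comm _ _, rfl]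

theorem slot_st (s t : Fin K → Fin p) (κ : ℕ) (i : Fin K) :
    slot s t i = slot (st s t κ) (co s t κ) i := by
  rw [slot, slot, dg_st]
  unfold st co
  split_ifs
  exacts [asg_comm _ _ _, rfl]

theorem moved_iff {s t : Fin K → Fin p} {j l : Fin K} {δ : ℕ} (hδ : δ ≤ 1)
    (h : ¬(slot s t l = slot s t j ∧ co s t (key s t j + δ) l = slot s t j)) :
    key s t l < key s t j + δ ↔
      slot s t l < slot s t j ∨ slot s t l = slot s t j ∧ s j ≠ slot s t j := by
  rcases lt_trichotomy (slot s t l) (slot s t j) with h1 | h1 | h1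
  · have := key_lt_of h1
    simp only [h1, true_or, iff_true]
    omega
  · have h2 := l.2
    have h3 := j.2
    have h4 := (asg_spec (dg s t) (s l) (t l)).1
    change slot s t l = _ ∨ slot s t l = _ at h4
    simp only [h1, true_and, co, lt_self_iff_false, false_or] at h h4 ⊢
    by_cases h5 : key s t l < key s t j + δ
    · simp only [h5, if_true, true_iff] at h ⊢
      intro h6
      simp only [key, h1, sub, h, h6, if_true, if_false] at h5
      omega
    · simp only [h5, if_false, false_iff, not_not] at h ⊢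
      by_contra h6
      have h7 : s l = slot s t j := (h4.resolve_right (Ne.symm h)).symm
      simp only [key, h1, sub, h7, h6, if_true, if_false] at h5
      omega
  · have := key_lt_of h1
    simp only [h1.ne', h1.le.not_gt, false_and, or_self, iff_false]
    omega

/-- The positions where the complementary state does not determine the time. -/
def amb (a : Fin p) (i : Fin K) (x : Fin K → Fin p) : Finset (Fin K) :=
  univ.filter fun l => x l = a ∨ x l = x i

theorem mult {δ : ℕ} (hδ : δ ≤ 1) (v : Fin K → Fin p) (a : Fin p) (i j : Fin K)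
    (Q : (Fin K → Fin p) → Prop) :
    ∑ s, ∑ t, ind (st s t (key s t j + δ) = v ∧ Q (co s t (key s t j + δ)) ∧
      (slot s t j = a ∨ slot s t j = co s t (key s t j + δ) i)) ≤
      ∑ x, ind (Q x) * 2 ^ (amb a i x).card := by
  classical
  rw [← Fintype.sum_prod_type', sum_ind]
  refine (card_le_card_of_injOn (t := (univ.filter Q).sigma fun x => (amb a i x).powerset)
    (fun r => ⟨co r.1 r.2 (key r.1 r.2 j + δ), univ.filter fun l =>
      key r.1 r.2 l < key r.1 r.2 j + δ ∧ co r.1 r.2 (key r.1 r.2 j + δ) l = slot r.1 r.2 j⟩)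
    (fun r hr => ?_) ?_).trans (le_of_eq ?_)
  · simp only [coe_filter, mem_univ, true_and, Set.mem_ofPred_eq] at hr
    simp only [mem_coe, mem_sigma, mem_filter, mem_univ, true_and, mem_powerset, hr.2.1]
    intro l hl
    simp only [amb, mem_filter, mem_univ, true_and] at hl ⊢
    rw [hl.2]
    exact hr.2.2
  · rintro ⟨s, t⟩ hr ⟨s', t'⟩ hr' h
    simp only [coe_filter, mem_univ, true_and, Set.mem_ofPred_eq] at hr hr'
    simp only [Sigma.mk.injEq, heq_eq_eq] at h
    obtain ⟨h1, h2⟩ := h
    have h3 := hr.1.trans hr'.1.symm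
    have h4 : ∀ l, slot s t l = slot s' t' l := fun l => by
      rw [slot_st s t (key s t j + δ), slot_st s' t' (key s' t' j + δ), h1, h3]
    have h5 : s j = s' j := by
      have e1 := congrFun h1 j
      have e2 := congrFun h3 j
      unfold co at e1
      unfold st at e2
      split_ifs at e1 e2 <;> first | assumption | omega
    have h6 : ∀ l, key s t l < key s t j + δ ↔ key s' t' l < key s' t' j + δ := fun l => by
      by_cases h7 : slot s t l = slot s t j ∧ co s t (key s t j + δ) l = slot s t j
      · have := congrArg (l ∈ ·) h2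
        simp only [mem_filter, mem_univ, true_and, ← h1, ← h4, h7.2, and_true] at this
        exact iff_of_eq this
      · rw [moved_iff hδ h7, moved_iff hδ (by rwa [← h1, ← h4, ← h4]), h4, h4, h5]
    refine Prod.ext (funext fun l => ?_) (funext fun l => ?_) <;>
    · have e1 := congrFun h1 l
      have e2 := congrFun h3 l
      simp only [co, st, ← h6] at e1 e2
      split_ifs at e1 e2 <;> assumption
  · simp only [card_sigma, card_powerset, sum_filter, ind]
    refine sum_congr rfl fun x _ => ?_
    split_ifs <;> simp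

theorem weight (v : Fin K → Fin p) (a : Fin p) (i : Fin K) :
    (p + 4) * ∑ x : Fin K → Fin p, dg v x (x i) * 2 ^ (amb a i x).card ≤
      4 * (K + p) * (p + 4) ^ K := by
  classical
  let g : Fin p → Fin p → ℕ := fun c y => if y = c then 4 else if y = a then 2 else 1
  have h1 : ∀ x : Fin K → Fin p, dg v x (x i) * 2 ^ (amb a i x).card ≤
      ∑ c, (∑ l, ind (v l = c) + 1) * ∏ l, (if l = i then ind (x l = c) else 1) * g c (x l) :=
    fun x => by
      refine le_trans ?_ (single_le_sum (fun _ _ => Nat.zero_le _) (mem_univ (x i)))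
      have e1 : ∏ l, (if l = i then ind (x l = x i) else 1) * g (x i) (x l) =
          2 ^ (univ.filter fun l => x l = x i).card * 2 ^ (amb a i x).card := by
        rw [← prod_const, ← prod_const, amb, prod_filter, prod_filter, ← prod_mul_distrib]
        refine prod_congr rfl fun l _ => ?_
        simp only [g, ind]
        split_ifs <;> simp_all
      have e2 := (Nat.lt_two_pow_self (n := (univ.filter fun l => x l = x i).card)).le
      have e3 := Nat.one_le_two_pow (n := (univ.filter fun l => x l = x i).card)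
      rw [e1, dg, sum_add_distrib, sum_ind fun l => x l = x i, ← mul_assoc]
      refine Nat.mul_le_mul_right _ ?_
      nlinarith [Nat.zero_le (∑ l, ind (v l = x i))]
  have h2 : ∀ c, (p + 4) * ∑ x : Fin K → Fin p,
      ∏ l, (if l = i then ind (x l = c) else 1) * g c (x l) ≤ 4 * (p + 4) ^ K := fun c => by
    have := prod_univ_sum (fun _ : Fin K => (univ : Finset (Fin p)))
      fun l y => (if l = i then ind (y = c) else 1) * g c y
    rw [Fintype.piFinset_univ] at this
    rw [← this, ← mul_prod_erase _ _ (mem_univ i), ← Fin.prod_const, ← mul_prod_erase _ _ (mem_univ i),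
      mul_left_comm]
    refine Nat.mul_le_mul (le_of_eq ?_) (Nat.mul_le_mul_left _ (prod_le_prod' fun l hl => ?_))
    · rw [← sum_ind_eq c 4]
      refine sum_congr rfl fun y _ => ?_
      by_cases h : y = c <;> simp [ind, g, h]
    · simp only [(mem_erase.1 hl).1, if_false, one_mul]
      refine (sum_le_sum (g := fun y => 1 + (ind (y = c) * 3 + ind (y = a) * 1)) fun y _ => ?_).trans ?_
      · simp only [g, ind]
        split_ifs <;> omega
      · simp only [sum_add_distrib, sum_ind_eq]
        simp
  refine (Nat.mul_le_mul_left _ (sum_le_sum fun x _ => h1 x)).trans ?_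
  rw [sum_comm, mul_sum]
  refine (sum_le_sum fun c _ => show _ ≤ (∑ l, ind (v l = c) + 1) * (4 * (p + 4) ^ K) by
    rw [← mul_sum, mul_left_comm]; exact Nat.mul_le_mul_left _ (h2 c)).trans (le_of_eq ?_)
  have : ∀ l, ∑ c, ind (v l = c) = 1 := fun l => by
    simpa only [mul_one, eq_comm (a := v l)] using sum_ind_eq (v l) 1
  rw [← sum_mul, sum_add_distrib, sum_comm]
  simp only [this, sum_const, card_univ, Fintype.card_fin, smul_eq_mul, mul_one]
  ring

theorem witness {δ : ℕ} (hδ : δ ≤ 1) {s t : Fin K → Fin p} {a : Fin p} {i j : Fin K} (hij : j < i)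
    (hj : st s t (key s t j + δ) j = a) (hi : st s t (key s t j + δ) i = a) :
    dg s t a ≤ dg s t (co s t (key s t j + δ) j) ∨
      slot s t j = a ∧ dg s t a ≤ dg s t (co s t (key s t j + δ) i) := by
  have h1 : ∀ l, st s t (key s t j + δ) l = a → slot s t l = a ∨
      dg s t a ≤ dg s t (co s t (key s t j + δ) l) := fun l hl => by
    have h2 := asg_spec (dg s t) (st s t (key s t j + δ) l) (co s t (key s t j + δ) l)
    rw [slot_st s t (key s t j + δ), slot, dg_st]
    rcases h2.1 with h3 | h3
    · exact .inl (h3.trans hl)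
    · exact .inr (by rw [← hl, ← h3]; exact h2.2)
  rcases h1 j hj with h2 | h2
  swap
  · exact .inl h2
  rcases h1 i hi with h3 | h3
  swap
  · exact .inr ⟨h2, h3⟩
  have h4 := i.2
  have h5 := Fin.lt_def.1 hij
  by_cases h6 : co s t (key s t j + δ) j = a
  · exact .inl (h6 ▸ le_rfl)
  refine .inr ⟨h2, le_of_eq (congrArg _ ?_)⟩
  simp only [st, co, key, sub, h2, h3, add_assoc, add_lt_add_iff_left] at hi hj h6 ⊢
  split_ifs at hi hj h6 ⊢ <;> omega

theorem sched {δ : ℕ} (hδ : δ ≤ 1) (a : Fin p) (J : Finset (Fin K)) (v : Fin K → Fin K → Fin p)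
    (hv : ∀ j ∈ J, ∀ i ∈ J, v j i = a) :
    (p + 4) * ∑ j ∈ J, ∑ s, ∑ t, ind (st s t (key s t j + δ) = v j) ≤
      12 * (K + p) * (p + 4) ^ K := by
  classical
  have h0 : ∀ j ∈ J, ∀ s t, st s t (key s t j + δ) = v j →
      slot s t j = a ∨ slot s t j = co s t (key s t j + δ) j := fun j hj s t h => by
    rw [slot_st s t (key s t j + δ) j, slot, h, hv j hj j hj]
    exact (asg_spec _ _ _).1
  have h1 : ∀ (n : ℕ) (i j : Fin K), n * ((p + 4) * ∑ s, ∑ t, ind (st s t (key s t j + δ) = v j ∧
      n ≤ dg (v j) (co s t (key s t j + δ)) (co s t (key s t j + δ) i) ∧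
      (slot s t j = a ∨ slot s t j = co s t (key s t j + δ) i))) ≤ 4 * (K + p) * (p + 4) ^ K :=
    fun n i j => by
      refine le_trans ?_ (weight (v j) a i)
      rw [mul_left_comm]
      refine Nat.mul_le_mul_left _ ((Nat.mul_le_mul_left _
        (mult hδ (v j) a i j fun x => n ≤ dg (v j) x (x i))).trans ?_)
      rw [mul_sum]
      refine sum_le_sum fun x _ => ?_
      rw [← mul_assoc]
      refine Nat.mul_le_mul_right _ ?_
      unfold ind
      split_ifs <;> omega
  have h2 : ∀ j ∈ J, (p + 4) * ∑ s, ∑ t, ind (st s t (key s t j + δ) = v j) ≤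
      4 * (K + p) * (p + 4) ^ K := fun j hj => by
    refine le_trans ?_ (h1 1 j j)
    rw [one_mul]
    refine Nat.mul_le_mul_left _ (sum_le_sum fun s _ => sum_le_sum fun t _ => ind_mono fun h =>
      ⟨h, le_trans ?_ (single_le_sum (f := fun i => ind (v j i = _) + ind (_ = _))
        (fun _ _ => Nat.zero_le _) (mem_univ j)), h0 j hj s t h⟩)
    simp [ind]
  have h3 : ∀ j ∈ J.filter fun j => ∃ i ∈ J, j < i,
      J.card * ((p + 4) * ∑ s, ∑ t, ind (st s t (key s t j + δ) = v j)) ≤
        4 * (K + p) * (p + 4) ^ K + 4 * (K + p) * (p + 4) ^ K := fun j hj => by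
    obtain ⟨hj, i, hi, hij⟩ := mem_filter.1 hj
    refine le_trans ?_ (add_le_add (h1 J.card j j) (h1 J.card i j))
    simp only [← mul_add, ← sum_add_distrib]
    refine Nat.mul_le_mul_left _ (Nat.mul_le_mul_left _ (sum_le_sum fun s _ => sum_le_sum fun t _ =>
      (ind_mono fun h => ?_).trans (ind_or _ _)))
    have h4 : J.card ≤ dg s t a := by
      rw [← dg_st s t (key s t j + δ), h, dg, card_eq_sum_ones]
      refine le_trans (sum_le_sum fun l hl => ?_) (sum_le_sum_of_subset (subset_univ J))
      simp [ind, hv j hj l hl]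
    have h5 := dg_st s t (key s t j + δ)
    rw [h] at h5
    rw [h5]
    rcases witness hδ hij (h ▸ hv j hj j hj) (h ▸ hv j hj i hi) with h6 | h6
    exacts [.inl ⟨h, h4.trans h6, h0 j hj s t h⟩, .inr ⟨h, h4.trans h6.2, .inl h6.1⟩]
  have h4 : (J.filter fun j => ¬∃ i ∈ J, j < i).card ≤ 1 := card_le_one.2 fun i hi j hj => by
    obtain ⟨h5, h6⟩ := mem_filter.1 hi
    obtain ⟨h7, h8⟩ := mem_filter.1 hj
    exact le_antisymm (not_lt.1 fun h => h8 ⟨i, h5, h⟩) (not_lt.1 fun h => h6 ⟨j, h7, h⟩)
  rcases J.eq_empty_or_nonempty with rfl | hJ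
  · simp
  have h5 := sum_le_card_nsmul _ _ _ h3
  have h6 := sum_le_card_nsmul (J.filter fun j => ¬∃ i ∈ J, j < i) _ _
    fun j hj => h2 j (mem_filter.1 hj).1
  rw [← mul_sum, smul_eq_mul] at h5
  have h7 := Nat.le_of_mul_le_mul_left
    (h5.trans (Nat.mul_le_mul_right _ (card_filter_le _ _))) hJ.card_pos
  rw [mul_sum, ← sum_filter_add_sum_filter_not J fun j => ∃ i ∈ J, j < i]
  rw [smul_eq_mul] at h6
  nlinarith [Nat.mul_le_mul_right (4 * (K + p) * (p + 4) ^ K) h4]

end Pool.Agent.Lib.MP_945667_co
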