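import Pool.Agent.Lib.MP_945667_co.H22Box

/-!
The moves of one window of disks, and their load.
-/

namespace Pool.Agent.Lib.MP_945667_co

open Finset Equiv Pool.Agent.Lib.MP_25cd9a_co
open Fin hiding sum_const prod_const

variable {p K m n : ℕ}

/-- The edges used while the disks of the window move from `w` to `t`. -/
def Es (a b : Fin p) (w t : Fin K → Fin p) (y : Fin m → Fin p) (x x' : Fin (K + m) → Fin p) :
    Prop :=
  ∃ j : Fin K, ∃ δ ≤ 1,
    x ∈ Box j (st w t (key w t j + δ) j) a b (append (st w t (key w t j + δ)) y) ∧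
    x' ∈ Box j (st w t (key w t j + δ) j) a b (append (st w t (key w t j + δ)) y)

theorem av_append {a b : Fin p} {w : Fin K → Fin p} {y : Fin m → Fin p} :
    Av a b (append w y) ↔ Av a b w ∧ Av a b y := by
  simp only [Av, forall_fin_add, append_left, append_right]
  tauto

theorem av_st {a b : Fin p} {w t : Fin K → Fin p} (hw : Av a b w) (ht : Av a b t) (κ : ℕ) :
    Av a b (st w t κ) := ⟨hw.1, fun i => by
  unfold st
  split_ifs
  exacts [ht.2 i, hw.2 i]⟩

theorem mid_mem {a b : Fin p} {w w' : Fin K → Fin p} (y : Fin m → Fin p) {j : Fin K}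
    (h : ∀ i, i ≠ j → w' i = w i) (hj : w' j = a) :
    append w' y ∈ Box j (w j) a b (append w y) := by
  refine (forall_fin_add _).2 ⟨fun i => ?_, fun i => ?_⟩
  · simp only [append_left, val_castAdd, Tri]
    have := h i
    grind
  · simp only [append_right, Tri]
    grind

theorem stage_rch {a b : Fin p} {w t : Fin K → Fin p} {y : Fin m → Fin p} (hw : Av a b w)
    (ht : Av a b t) (hy : Av a b y) : RE (hanoi p (K + m)) (Es a b w t y) (append w y) (append t y) := by
  have h : ∀ κ, RE (hanoi p (K + m)) (Es a b w t y) (append w y) (append (st w t κ) y) := fun κ => by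
    induction κ with
    | zero => exact (show w = st w t 0 from funext fun i => by simp [st]) ▸ .refl
    | succ κ ih =>
      refine ih.trans ?_
      have h1 : ∀ i, key w t i ≠ κ → st w t (κ + 1) i = st w t κ i := fun i hi => by
        simp only [st, show key w t i < κ + 1 ↔ key w t i < κ by omega]
      by_cases h2 : ∀ i, key w t i ≠ κ
      · rw [funext fun i => h1 i (h2 i)]
        exact .refl
      push Not at h2
      obtain ⟨j, rfl⟩ := h2
      have h3 := fun κ => (av_st hw ht κ).2 j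
      have h4 := fun κ => av_append.2 ⟨av_st hw ht κ, hy⟩
      refine ((box_rch (h4 _) (h3 _).1 (h3 _).2 (box_self _ _ _ _ _) (mid_mem
        (w' := Function.update (st w t (key w t j)) j a) y (fun i hi => Function.update_of_ne hi _ _)
        (Function.update_self _ _ _))).mono fun x x' h => ⟨j, 0, Nat.zero_le _, h⟩).trans
        ((box_rch (h4 _) (h3 _).1 (h3 _).2 (mid_mem y (fun i hi => ?_) (Function.update_self _ _ _))
          (box_self _ _ _ _ _)).mono fun x x' h => ⟨j, 1, le_rfl, h⟩)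
      rw [Function.update_of_ne hi, h1 i ((key_inj w t).ne hi)]
  have h1 := h (p * (2 * K))
  rwa [show st w t (p * (2 * K)) = t from funext fun i => if_pos (key_bound w t i)] at h1

theorem ind_exists {α : Type} (S : Finset α) (P : α → Prop) :
    ind (∃ a ∈ S, P a) ≤ ∑ a ∈ S, ind (P a) := by
  by_cases h : ∃ a ∈ S, P a
  · obtain ⟨a, ha, h⟩ := h
    exact (ind_mono fun _ => h).trans
      (single_le_sum (f := fun a => ind (P a)) (fun _ _ => Nat.zero_le _) ha)
  · simp [ind, h]

theorem stage_load (a b : Fin p) {z z' : Fin (K + m) → Fin p} {i : Fin (K + m)} (hi : z i ≠ z' i) :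
    (p + 4) * ∑ w : Fin K → Fin p, ∑ t, ∑ y : Fin m → Fin p,
      ind (Av a b w ∧ Av a b t ∧ Av a b y ∧ Es a b w t y z z') ≤
      (∑ c, ind (Tri c a b (z i) ∧ Tri c a b (z' i))) * (24 * (K + p) * (p + 4) ^ K) := by
  classical
  let v : Fin p → Fin K → Fin K → Fin p := fun c j l => rc j c a b z (castAdd m l)
  let J : Fin p → Finset (Fin K) := fun c => univ.filter fun j => v c j j = c ∧ Av a b (v c j)
  have h1 : ∀ w t, ∑ y : Fin m → Fin p, ind (Av a b w ∧ Av a b t ∧ Av a b y ∧ Es a b w t y z z') ≤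
      ∑ c, ind (Tri c a b (z i) ∧ Tri c a b (z' i)) * ∑ δ ∈ range 2, ∑ j ∈ J c,
        ind (st w t (key w t j + δ) = v c j) := fun w t => by
    refine (sum_le_sum fun y _ => (ind_mono (Q := ∃ c ∈ univ, ∃ δ ∈ range 2, ∃ j ∈ J c,
      y = (fun l => rc j c a b z (natAdd K l)) ∧ (Tri c a b (z i) ∧ Tri c a b (z' i)) ∧
        st w t (key w t j + δ) = v c j) ?_).trans ((ind_exists _ _).trans (sum_le_sum fun c _ =>
      (ind_exists _ _).trans (sum_le_sum fun δ _ => ind_exists _ _)))).trans (le_of_eq ?_)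
    · rintro ⟨hw, ht, hy, j, δ, hδ, h1, h2⟩
      have h3 := av_st hw ht (key w t j + δ)
      have h4 := box_uniq (av_append.2 ⟨h3, hy⟩) h1
      have h5 : st w t (key w t j + δ) = v (st w t (key w t j + δ) j) j := funext fun l => by
        simp only [v, ← h4, append_left]
      refine ⟨_, mem_univ _, δ, mem_range.2 (by omega), j, mem_filter.2 ⟨mem_univ _, ?_, ?_⟩,
        funext fun l => ?_, box_type h1 h2 hi, h5⟩
      · rw [← h5]
      · rwa [← h5]
      · simp only [← h4, append_right]
    · rw [sum_comm]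
      refine sum_congr rfl fun c _ => ?_
      rw [sum_comm, mul_sum]
      refine sum_congr rfl fun δ _ => ?_
      rw [sum_comm, mul_sum]
      simp only [ind_and (_ = _), sum_ind_eq, ind_and (_ ∧ _)]
  refine (Nat.mul_le_mul_left _ (sum_le_sum fun w _ => sum_le_sum fun t _ => h1 w t)).trans ?_
  rw [sum_congr rfl fun w _ => sum_comm, sum_comm, mul_sum, sum_mul]
  refine sum_le_sum fun c _ => ?_
  simp only [← mul_sum]
  rw [mul_left_comm]
  refine Nat.mul_le_mul_left _ ?_
  have h2 : ∀ δ ≤ 1, (p + 4) * ∑ w, ∑ t, ∑ j ∈ J c, ind (st w t (key w t j + δ) = v c j) ≤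
      12 * (K + p) * (p + 4) ^ K := fun δ hδ => by
    rw [sum_congr rfl fun w _ => sum_comm, sum_comm]
    refine sched hδ c (J c) (v c) fun j hj l hl => ?_
    have h3 := (mem_filter.1 hj).2.2.2 l
    have h4 := (mem_filter.1 hl).2.1
    simp only [v, rc, val_castAdd] at h3 h4 ⊢
    grind
  simp only [sum_range_succ, sum_range_zero, zero_add, sum_add_distrib, mul_add]
  linarith [h2 0 (Nat.zero_le _), h2 1 le_rfl]

theorem tri_count {α β : Fin p} (h : α ≠ β) :
    ∑ a, ∑ b, ∑ c, ind (Tri c a b α ∧ Tri c a b β) ≤ 6 * p := by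
  refine (sum_le_sum fun a _ => sum_le_sum fun b _ => sum_le_sum fun c _ => show _ ≤
    ind (c = α) * ind (a = β) + ind (c = α) * ind (b = β) + ind (c = β) * ind (a = α) +
    ind (c = β) * ind (b = α) + ind (b = β) * ind (a = α) + ind (b = α) * ind (a = β) by
      simp only [ind, Tri]
      grind).trans (le_of_eq ?_)
  have e : ∀ γ : Fin p, ∑ c, ind (c = γ) = 1 := fun γ => by simpa using sum_ind_eq γ 1
  simp only [sum_add_distrib, sum_ind_eq, sum_const, card_univ, Fintype.card_fin, smul_eq_mul,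
    ← mul_sum, e]
  ring

theorem inj_count {f : Fin n → Fin p} (hf : f.Injective) (γ : Fin p) : ∑ c, ind (γ = f c) ≤ 1 := by
  classical
  rw [sum_ind]
  exact card_le_one.2 fun b hb c hc => hf (by rw [← (mem_filter.1 hb).2, (mem_filter.1 hc).2])

theorem one_count {f g : Fin n → Fin p} (hf : f.Injective) (hg : g.Injective) (γ : Fin p) :
    ∑ ω : Fin n × Fin n, ind (γ = f ω.1 ∨ γ = g ω.2) ≤ 2 * n := by
  refine (sum_le_sum fun ω _ => ind_or _ _).trans ?_
  simp only [sum_add_distrib, Fintype.sum_prod_type, sum_const, card_univ, Fintype.card_fin,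
    smul_eq_mul, ← mul_sum]
  nlinarith [inj_count hf γ, inj_count hg γ]

theorem two_count {f g : Fin n → Fin p} (hf : f.Injective) (hg : g.Injective) {α β : Fin p}
    (h : α ≠ β) : ∑ ω : Fin n × Fin n,
      ind ((α = f ω.1 ∨ α = g ω.2) ∧ (β = f ω.1 ∨ β = g ω.2)) ≤ 2 := by
  refine (sum_le_sum fun ω _ => show _ ≤ ind (α = f ω.1) * ind (β = g ω.2) +
    ind (β = f ω.1) * ind (α = g ω.2) by simp only [ind]; grind).trans ?_
  simp only [sum_add_distrib, Fintype.sum_prod_type, ← sum_mul_sum]
  exact add_le_add (Nat.mul_le_mul (inj_count hf _) (inj_count hg _))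
    (Nat.mul_le_mul (inj_count hf _) (inj_count hg _))

/-- The weight of a peg relative to a pair of free pegs. -/
noncomputable def ph (n : ℕ) (u v α : Fin p) : ℕ := n * ind (α = u ∨ α = v) + 2

theorem four_count {f g : Fin n → Fin p} (hf : f.Injective) (hg : g.Injective) {α β : Fin p}
    (h : α ≠ β) (u v : Fin p) : ∑ ω : Fin n × Fin n,
      ind (((α = u ∨ α = v) ∨ α = f ω.1 ∨ α = g ω.2) ∧ ((β = u ∨ β = v) ∨ β = f ω.1 ∨ β = g ω.2)) ≤
        ph n u v α * ph n u v β := by
  have h1 := one_count hf hg α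
  have h2 := one_count hf hg β
  have h3 := two_count hf hg h
  have h4 : ind True = 1 := by simp [ind]
  have h5 : ind False = 0 := by simp [ind]
  by_cases a : α = u ∨ α = v <;> by_cases b : β = u ∨ β = v <;>
    simp only [ph, a, b, true_or, false_or, true_and, and_true, h4, h5, sum_const, card_univ,
      Fintype.card_prod, Fintype.card_fin, smul_eq_mul] <;> nlinarith

theorem ph_sum {f g : Fin n → Fin p} (hf : f.Injective) (hg : g.Injective) {α β : Fin p}
    (h : α ≠ β) : ∑ ω : Fin n × Fin n, ph n (f ω.1) (g ω.2) α * ph n (f ω.1) (g ω.2) β ≤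
      14 * n ^ 2 := by
  have h1 := one_count hf hg α
  have h2 := one_count hf hg β
  have h3 := two_count hf hg h
  simp only [ind_and] at h3
  have e : ∀ A B : ℕ, (n * A + 2) * (n * B + 2) = n ^ 2 * (A * B) + 2 * n * A + 2 * n * B + 4 :=
    fun A B => by ring
  simp only [ph, e, sum_add_distrib, ← mul_sum, sum_const, card_univ, Fintype.card_prod,
    Fintype.card_fin, smul_eq_mul]
  nlinarith [Nat.mul_le_mul_left (n ^ 2) h3, Nat.mul_le_mul_left (2 * n) h1,
    Nat.mul_le_mul_left (2 * n) h2]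

theorem exists_inj {k : ℕ} (S : Finset (Fin p)) (h : k + S.card ≤ p) :
    ∃ f : Fin k → Fin p, f.Injective ∧ ∀ c, f c ∉ S := by
  have h1 : k ≤ Sᶜ.card := by rw [card_compl, Fintype.card_fin]; omega
  obtain ⟨T, h2, h3⟩ := exists_subset_card_eq h1
  exact ⟨T.orderEmbOfFin h3, (T.orderEmbOfFin h3).injective,
    fun c => mem_compl.1 (h2 (T.orderEmbOfFin_mem h3 c))⟩

theorem pow_four (h : 6 * K ≤ p) : (p + 4) ^ K ≤ 3 * p ^ K := by
  have h1 : ∀ k r, 4 * k + r = p → r * (p + 4) ^ k ≤ p * p ^ k := fun k => by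
    induction k with
    | zero => intro r h; simp; omega
    | succ k ih =>
      intro r h
      have := Nat.mul_le_mul_left p (ih (r + 4) (by omega))
      have h3 : r * (p + 4) ≤ p * (r + 4) := by nlinarith
      have := Nat.mul_le_mul_right ((p + 4) ^ k) h3
      rw [pow_succ, pow_succ]
      nlinarith
  rcases Nat.eq_zero_or_pos K with rfl | h0
  · simp
  obtain ⟨r, hr⟩ := Nat.exists_eq_add_of_le (show 4 * K ≤ p by omega)
  refine Nat.le_of_mul_le_mul_left ?_ (show 0 < p by omega)
  nlinarith [h1 K r hr.symm, Nat.mul_le_mul_right ((p + 4) ^ K) (show p ≤ 3 * r by omega)]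

theorem pow_decay {q : ℕ} (h0 : 0 < q) (h : q ≤ 7 * n) : 9 * q ^ n ≤ 7 * (q + 2) ^ n := by
  have h1 : ∀ k, (q + 2 * k) * q ^ k ≤ q * (q + 2) ^ k := fun k => by
    induction k with
    | zero => simp
    | succ k ih =>
      have := Nat.mul_le_mul_left (q + 2) ih
      rw [pow_succ, pow_succ]
      nlinarith [Nat.zero_le (k * q ^ k)]
  refine Nat.le_of_mul_le_mul_left ?_ h0
  nlinarith [h1 n, Nat.mul_le_mul_right (q ^ n) h]

end Pool.Agent.Lib.MP_945667_co
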