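import Pool.Agent.Lib.MP_945667_co.H22Flow

/-!
The lower bound with an absolute constant.
-/

namespace Pool.Agent.Lib.MP_945667_co

open Finset Equiv Pool.Agent.Lib.MP_25cd9a_co
open Fin hiding sum_const prod_const

variable {p q n D : ℕ}

theorem avg' {S T : Type} [Fintype S] [Fintype T] [Nonempty S] [Nonempty T]
    (β : Fin 3 → Fin 3 → Fin 3 → Fin 3 → S × T → S × T → Prop) (N : ℕ)
    (hN : ∀ i j k l, ∑ r, ∑ r', ind (β i j k l r r') ≤ N) (h : ∀ (s : Fin 3 → S) (t : Fin 3 → T),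
      ∃ i j k l, i < j ∧ k ≠ l ∧ β i j k l (s i, t k) (s j, t l)) :
    (Fintype.card S * Fintype.card T) ^ 2 ≤ 18 * N := by
  let I := univ.filter fun x : (Fin 3 × Fin 3) × Fin 3 × Fin 3 => x.1.1 < x.1.2 ∧ x.2.1 ≠ x.2.2
  have h1 : ∑ s : Fin 3 → S, ∑ t : Fin 3 → T, 1 ≤ ∑ s : Fin 3 → S, ∑ t : Fin 3 → T,
      ∑ x ∈ I, ind (β x.1.1 x.1.2 x.2.1 x.2.2 (s x.1.1, t x.2.1) (s x.1.2, t x.2.2)) :=
    sum_le_sum fun s _ => sum_le_sum fun t _ => by
      obtain ⟨i, j, k, l, h1, h2, h3⟩ := h s t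
      refine le_trans ?_ (single_le_sum (fun _ _ => Nat.zero_le _)
        (show ((i, j), k, l) ∈ I from mem_filter.2 ⟨mem_univ _, h1, h2⟩))
      simp [ind, h3]
  have h2 : ∀ x ∈ I, ∑ s : Fin 3 → S, ∑ t : Fin 3 → T,
      ind (β x.1.1 x.1.2 x.2.1 x.2.2 (s x.1.1, t x.2.1) (s x.1.2, t x.2.2)) ≤
        Fintype.card S * Fintype.card T * N := fun x hx => by
    obtain ⟨h1, h2⟩ := (mem_filter.1 hx).2
    refine le_trans (le_of_eq ?_) (Nat.mul_le_mul_left _ (hN x.1.1 x.1.2 x.2.1 x.2.2))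
    rw [pair_sum h1.ne fun a b => ∑ t : Fin 3 → T,
      ind (β x.1.1 x.1.2 x.2.1 x.2.2 (a, t x.2.1) (b, t x.2.2)), mul_assoc]
    simp only [fun a b => pair_sum h2 fun c d => ind (β x.1.1 x.1.2 x.2.1 x.2.2 (a, c) (b, d)),
      ← mul_sum, Fintype.sum_prod_type]
    congr 2
    exact sum_congr rfl fun a _ => sum_comm
  simp only [sum_comm (t := I)] at h1
  replace h1 := h1.trans (sum_le_card_nsmul _ _ _ h2)
  simp only [sum_const, card_univ, Fintype.card_fun,
    Fintype.card_fin, smul_eq_mul, show I.card = 18 by decide] at h1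
  refine Nat.le_of_mul_le_mul_left ?_ (Nat.mul_pos (Fintype.card_pos (α := S))
    (Fintype.card_pos (α := T)))
  nlinarith

theorem ph_one {f : Fin n → Fin p} (hf : f.Injective) {α β : Fin p} (h : α ≠ β) (u : Fin p) :
    ∑ c, ph n u (f c) α * ph n u (f c) β ≤ (n + 2) * (4 * n) := by
  refine (sum_le_sum fun c _ => show _ ≤ (n + 2) * (n * ind (α = f c) + n * ind (β = f c) + 2) by
    have : α = u → β = u → False := fun a b => h (a.trans b.symm)
    simp only [ph, ind]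
    split_ifs <;> first | nlinarith | tauto).trans ?_
  simp only [← mul_sum, sum_add_distrib, sum_const, card_univ, Fintype.card_fin, smul_eq_mul]
  refine Nat.mul_le_mul_left _ ?_
  nlinarith [inj_count hf α, inj_count hf β]

theorem sum_three (T N : ℕ) (A G H : Fin n → ℕ) (P : Fin n → Fin n → ℕ) :
    ∑ a, ∑ b, ∑ c, T * (N * (A a * P b c) + G c * H a) =
      T * (N * ((∑ a, A a) * ∑ b, ∑ c, P b c) + n * ((∑ c, G c) * ∑ a, H a)) := by
  simp only [← mul_sum, sum_add_distrib, ← sum_mul, sum_const, card_univ, Fintype.card_fin,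
    smul_eq_mul]
  ring

theorem top (h0 : 6 ≤ n) (h6 : 6 * n ≤ q + 2) (h7 : q + 2 ≤ 7 * n) {C}
    (hC : K33E (hanoi (q + 2) (D + 1)) C) : n ^ 4 * q ^ (2 * D) ≤ 18 * 16000 ^ 2 * C.card := by
  classical
  obtain ⟨T, _, _, tgt, E, e1, e2, e3⟩ := flow h0 h6 h7 D
  have : NeZero n := ⟨by omega⟩
  have : NeZero q := ⟨by omega⟩
  obtain ⟨B', hB', -⟩ := exists_inj (p := q + 2) (k := 6 * n) ∅ (by simpa using h6)
  let B : Fin (3 + 3) → Fin n → Fin (q + 2) := fun i c => B' (finProdFinEquiv (m := 6) (i, c))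
  have b1 : ∀ i, (B i).Injective := fun i c c' h =>
    (Prod.ext_iff.1 (finProdFinEquiv.injective (hB' h))).2
  have b2 : ∀ {i j c c'}, B i c = B j c' → i = j := fun h =>
    (Prod.ext_iff.1 (finProdFinEquiv.injective (hB' h))).1
  have b3 : ∀ i k c c', B (natAdd 3 k) c ≠ B (castAdd 3 i) c' := fun i k c c' h => by
    have := congrArg Fin.val (b2 h)
    have := i.2
    simp at *
    omega
  choose σ s1 s2 using fun u v : Fin (q + 2) => exists_inj (k := q) {u, v}
    (Nat.add_le_add_left card_le_two _)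
  have av : ∀ u v, u ≠ v → Av u v (σ u v) := fun u v h => ⟨h, fun c => by simpa using s2 u v c⟩
  let X : Fin (q + 2) → Fin (q + 2) → Fin (q + 2) → (Fin D → Fin (q + 2)) → T →
      (Fin (D + 1) → Fin (q + 2)) → (Fin (D + 1) → Fin (q + 2)) → Prop := fun a u b y τ x x' =>
    (x 0 = a ∧ x' 0 = a ∧ tail x ∈ Box 0 b u a y ∧ tail x' ∈ Box 0 b u a y) ∨
    (tail x = swap b u ∘ y ∧ tail x' = swap b u ∘ y ∧ (x 0 = a ∧ x' 0 = b ∨ x 0 = b ∧ x' 0 = a)) ∨
    x 0 = b ∧ x' 0 = b ∧ E b a (swap b u ∘ y) τ (tail x) (tail x')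
  let Y : Fin 3 → Fin 3 → ((Fin n × Fin n) × (Fin D → Fin q)) × Fin n × T → _ → _ → Prop :=
    fun i k r => X (B (castAdd 3 i) r.1.1.1) (B (natAdd 3 0) r.1.1.2) (B (natAdd 3 k) r.2.1)
      (σ (B (natAdd 3 0) r.1.1.2) (B (castAdd 3 i) r.1.1.1) ∘ r.1.2) r.2.2
  have load : ∀ i k z z', ∑ r, ind (z ≠ z' ∧ Y i k r z z') ≤ 16000 * n * Fintype.card T :=
    fun i k z z' => by
    by_cases hz : z = z'
    · simp [ind, hz]
    simp only [Fintype.sum_prod_type, Y, ne_eq, hz, not_false_eq_true, true_and]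
    rw [sum_congr rfl fun c _ => sum_congr rfl fun c' _ => sum_comm]
    have i1 := fun k => inj_count (b1 k)
    by_cases h : z 0 = z' 0
    swap
    · refine (sum_le_sum fun c _ => sum_le_sum fun c' _ => sum_le_sum fun c'' _ =>
        sum_comm.trans_le (sum_le_card_nsmul _ _ (ind (z 0 = B (castAdd 3 i) c) *
          ind (z' 0 = B (natAdd 3 k) c'') + ind (z' 0 = B (castAdd 3 i) c) *
          ind (z 0 = B (natAdd 3 k) c'')) fun τ _ => ?_)).trans ?_
      · simp only [← ind_and]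
        refine le_trans ?_ (ind_or _ _)
        by_cases h1 : ∃ s, swap (B (natAdd 3 k) c'') (B (natAdd 3 0) c') ∘
          σ (B (natAdd 3 0) c') (B (castAdd 3 i) c) ∘ s = tail z
        · obtain ⟨s, hs⟩ := h1
          refine ind_eq_le _ _ s fun s' h2 => ?_
          rcases h2 with h2 | h2 | h2
          · exact (h (h2.1.trans h2.2.1.symm)).elim
          · exact ⟨(s1 _ _).comp_left ((Equiv.injective _).comp_left (hs.trans h2.1).symm),
              h2.2.2.imp_right And.symm⟩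
          · exact (h (h2.1.trans h2.2.1.symm)).elim
        · rw [sum_eq_zero]
          · exact Nat.zero_le _
          refine fun s _ => if_neg fun h2 => ?_
          rcases h2 with h2 | h2 | h2
          exacts [h (h2.1.trans h2.2.1.symm), h1 ⟨s, h2.1.symm⟩, h (h2.1.trans h2.2.1.symm)]
      · simp only [smul_eq_mul, card_univ, ← mul_sum, sum_add_distrib, sum_const, Fintype.card_fin,
          ← sum_mul]
        nlinarith [Nat.mul_le_mul_left (Fintype.card T * n) (add_le_add (Nat.mul_le_mul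
          (i1 (castAdd 3 i) (z 0)) (i1 (natAdd 3 k) (z' 0))) (Nat.mul_le_mul
          (i1 (castAdd 3 i) (z' 0)) (i1 (natAdd 3 k) (z 0))))]
    obtain ⟨l, hl⟩ : ∃ l, tail z l ≠ tail z' l := by
      by_contra h1
      push Not at h1
      exact hz (funext (Fin.cases h h1))
    refine Nat.le_of_mul_le_mul_left ?_ (Nat.pow_pos (n := 2) (show 0 < n by omega))
    simp only [mul_sum univ _ (n ^ 2)]
    refine (sum_le_sum fun c _ => sum_le_sum fun c' _ => sum_le_sum fun c'' _ => show _ ≤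
      Fintype.card T * (n ^ 2 * (ind (z 0 = B (castAdd 3 i) c) *
        (ind (tail z l = B (natAdd 3 0) c' ∨ tail z l = B (natAdd 3 k) c'') +
          ind (tail z' l = B (natAdd 3 0) c' ∨ tail z' l = B (natAdd 3 k) c''))) +
        ind (z 0 = B (natAdd 3 k) c'') * (2 * (ph n (z 0) (B (castAdd 3 i) c) (tail z l) *
          ph n (z 0) (B (castAdd 3 i) c) (tail z' l)) + 2271 * (q + 2))) from ?_).trans ?_
    · have a1 := av _ _ (b3 i 0 c' c)
      have a2 := a1.swap (b3 i k c'' c)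
      simp only [← mul_sum]
      generalize B (castAdd 3 i) c = a, B (natAdd 3 0) c' = u, B (natAdd 3 k) c'' = b at *
      have k2 : ind (z 0 = b) * (n ^ 2 * ∑ τ, ∑ y, ind (Av b a y ∧ E b a y τ (tail z) (tail z'))) ≤
          ind (z 0 = b) * (Fintype.card T * (2 * (ph n (z 0) a (tail z l) *
            ph n (z 0) a (tail z' l)) + 2271 * (q + 2))) := by
        by_cases h2 : z 0 = b
        · exact Nat.mul_le_mul_left _ (h2 ▸ e3 (z 0) a _ _ l hl)
        · simp [ind, h2]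
      have k1 : ∑ τ, ∑ s, ind (X a u b (σ u a ∘ s) τ z z') ≤ ∑ τ : T, ind (z 0 = a) *
          (ind (tail z l = u ∨ tail z l = b) + ind (tail z' l = u ∨ tail z' l = b)) +
          ind (z 0 = b) * ∑ τ, ∑ y, ind (Av b a y ∧ E b a y τ (tail z) (tail z')) := by
        rw [mul_sum, ← sum_add_distrib]
        refine sum_le_sum fun τ _ => (sum_le_sum fun s _ => (ind_mono (Q := (Av u a (σ u a ∘ s) ∧
          z 0 = a ∧ tail z ∈ Box 0 b u a (σ u a ∘ s) ∧ tail z' ∈ Box 0 b u a (σ u a ∘ s)) ∨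
          z 0 = b ∧ Av b a ((swap b u ∘ σ u a) ∘ s) ∧
            E b a ((swap b u ∘ σ u a) ∘ s) τ (tail z) (tail z')) ?_).trans (ind_or _ _)).trans
          (sum_add_distrib.trans_le (add_le_add ?_ ?_))
        · rintro (h2 | h2 | h2)
          · exact .inl ⟨a1.comp _, h2.1, h2.2.2⟩
          · have := a2.1
            grind
          · exact .inr ⟨h2.1, a2.comp _, h2.2.2⟩
        · refine (sum_comp_le (s1 u a).comp_left fun y => ind (Av u a y ∧ z 0 = a ∧
            tail z ∈ Box 0 b u a y ∧ tail z' ∈ Box 0 b u a y)).trans (le_trans ?_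
              (Nat.mul_le_mul_left _ (ind_or _ _)))
          rw [← ind_and]
          refine ind_eq_le _ _ (rc 0 b u a (tail z)) fun y hy => ⟨box_uniq hy.1 hy.2.2.1, hy.2.1, ?_⟩
          have := box_type hy.2.2.1 hy.2.2.2 hl
          unfold Tri at this
          grind
        · simp only [ind_and (z 0 = b), ← mul_sum]
          exact Nat.mul_le_mul_left _ (sum_comp_le ((swap b u).injective.comp (s1 u a)).comp_left
            fun y => ind (Av b a y ∧ E b a y τ (tail z) (tail z')))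
      rw [sum_const, card_univ, smul_eq_mul] at k1
      rw [sum_comm]
      nlinarith [Nat.mul_le_mul_left (n ^ 2) k1]
    · have h1 := one_count (b1 (natAdd 3 0)) (b1 (natAdd 3 k)) (tail z l)
      have h2 := one_count (b1 (natAdd 3 0)) (b1 (natAdd 3 k)) (tail z' l)
      have h3 := ph_one (b1 (castAdd 3 i)) hl (z 0)
      rw [Fintype.sum_prod_type] at h1 h2
      rw [sum_three, mul_comm _ (Fintype.card T), mul_left_comm (n ^ 2) (Fintype.card T)]
      simp only [sum_add_distrib, ← mul_sum univ _ 2, sum_const, card_univ, Fintype.card_fin,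
        smul_eq_mul]
      refine Nat.mul_le_mul_left _ ((add_le_add (Nat.mul_le_mul_left _ (Nat.mul_le_mul (i1 _ _)
        (add_le_add h1 h2))) (Nat.mul_le_mul_left _ (Nat.mul_le_mul (i1 _ _) (add_le_add
          (Nat.mul_le_mul_left _ h3) (Nat.mul_le_mul_left _ (Nat.mul_le_mul_left _ h7)))))).trans ?_)
      nlinarith [Nat.mul_le_mul_left (n ^ 2) h0]
  have h1 := avg' (fun i j k l r r' => ∃ c ∈ C, (c.1.out.1 ≠ c.1.out.2 ∧ Y i k r c.1.out.1 c.1.out.2) ∧
    c.2.out.1 ≠ c.2.out.2 ∧ Y j l r' c.2.out.1 c.2.out.2) _ (fun i j k l => (bad_le _ _ C).trans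
      (sum_le_card_nsmul _ _ _ fun c _ => Nat.mul_le_mul (load i k _ _) (load j l _ _)))
    fun s t => hC (fun i => cons (B (castAdd 3 i) (s i).1.1)
        (σ (B (natAdd 3 0) (s i).1.2) (B (castAdd 3 i) (s i).1.1) ∘ (s i).2))
      (fun k => cons (B (natAdd 3 k) (t k).1) (tgt (t k).2)) (fun i k => Y i k (s i, t k))
      (fun i k => {x | x 0 = B (castAdd 3 i) (s i).1.1 ∨ x 0 = B (natAdd 3 k) (t k).1})
      (fun i k => ⟨.inl rfl, ?_, ?_⟩) ?_
  · simp only [Fintype.card_prod, Fintype.card_fun, Fintype.card_fin, smul_eq_mul] at h1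
    refine Nat.le_of_mul_le_mul_left ?_ (Nat.pow_pos (n := 2)
      (Nat.mul_pos (show 0 < n by omega) (Fintype.card_pos (α := T))))
    rw [pow_mul']
    nlinarith
  · have a1 := (av _ _ (b3 i 0 (s i).1.2 (s i).1.1)).comp (s i).2
    have b4 := b3 i k (t k).1 (s i).1.1
    have a2 := a1.swap b4
    refine (((tower a1 b4).map (cons _) fun x x' h h' =>
      ⟨adj_succ.2 (.inl ⟨rfl, h⟩), .inl ⟨rfl, rfl, h'⟩⟩).trans (.single ⟨adj_cons b4.symm
        fun l => (a2.2 l).symm, .inr (.inl ⟨rfl, rfl, .inl ⟨rfl, rfl⟩⟩)⟩)).trans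
      ((e2 _ _ _ (t k).2 a2).map (cons _) fun x x' h h' =>
        ⟨adj_succ.2 (.inl ⟨rfl, h⟩), .inr (.inr ⟨rfl, rfl, h'⟩)⟩)
  · rintro x y (h | h | h)
    · exact ⟨.inl ⟨h.2.1, h.1, h.2.2.symm⟩, .inl h.1⟩
    · exact ⟨.inr (.inl ⟨h.2.1, h.1, h.2.2.symm.imp And.symm And.symm⟩),
        h.2.2.imp And.left And.left⟩
    · exact ⟨.inr (.inr ⟨h.2.1, h.1, e1 _ _ _ _ _ _ h.2.2⟩), .inr h.1⟩
  · rintro i j k l hij hkl x (h | h) (h' | h')
    · exact hij.ne (castAdd_injective _ _ (b2 (h.symm.trans h')))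
    · exact b3 _ _ _ _ (h'.symm.trans h)
    · exact b3 _ _ _ _ (h.symm.trans h')
    · exact hkl (natAdd_injective _ _ (b2 (h.symm.trans h')))

theorem mag_le (hq : 4 ≤ q) : ∀ d, mag (q + 2) d ≤ 2 * q ^ (2 * d)
  | 0 => Nat.zero_le _
  | d + 1 => by
    have h1 := Nat.mul_le_mul_left (q + 2) (mag_le hq d)
    have h2 := Nat.mul_le_mul_left (q ^ (2 * d)) (show 2 * (q + 2) ≤ q ^ 2 by nlinarith)
    rw [mag_succ, mul_add 2 d, pow_add, mul_one]
    nlinarith

theorem uniform {p d : ℕ} (hp : 4 ≤ p) (hd : p < d) :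
    p ^ 2 * mag p d ≤ 10 ^ 14 * crossingNumber (hanoi p d) := by
  by_cases h : p < 36
  · have h1 := Nat.mul_le_mul_left (p ^ 2) (order hp hd).1
    have h2 := Nat.mul_le_mul_right (crossingNumber (hanoi p d)) (Nat.pow_le_pow_left h.le 4)
    nlinarith
  obtain ⟨D, hD⟩ := exists_drawing (hanoi p d) (fun z => rk d z)
    (Nat.cast_injective.comp (rk_inj d))
  obtain ⟨D', hD'⟩ := Nat.sInf_mem (s := Set.range fun D : Drawing (hanoi p d) => D.crossings)
    ⟨_, D, rfl⟩
  obtain ⟨C, h1, h2⟩ := D'.exists_k33E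
  obtain ⟨q, rfl⟩ := Nat.exists_eq_add_of_le' (show 2 ≤ p by omega)
  obtain ⟨d, rfl⟩ := Nat.exists_eq_add_of_le' (show 1 ≤ d by omega)
  have h3 := top (n := (q + 2) / 6) (by omega) (by omega) (by omega) h1
  have h4 := Nat.mul_le_mul_left ((q + 2) ^ 2) (mag_le (q := q) (by omega) (d + 1))
  have h5 := Nat.mul_le_mul_right (q ^ (2 * d)) (Nat.mul_le_mul
    (Nat.pow_le_pow_left (show q + 2 ≤ 7 * ((q + 2) / 6) by omega) 2)
    (Nat.pow_le_pow_left (show q ≤ 7 * ((q + 2) / 6) by omega) 2))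
  rw [crossingNumber, ← hD']
  rw [mul_add 2 d, pow_add, mul_one] at h4
  simp only [mul_pow] at h5
  nlinarith

end Pool.Agent.Lib.MP_945667_co
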