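import Mathlib

/-!
Hanoi graphs, drawings in the plane and the crossing number.
-/

namespace Pool.Agent.Lib.MP_945667_co

open Set

/-- The Hanoi graph with `p` pegs and `d` disks; coordinate `0` is the largest disk. -/
def hanoi (p d : ℕ) : SimpleGraph (Fin d → Fin p) where
  Adj s t := ∃ j, s j ≠ t j ∧ (∀ i, i ≠ j → s i = t i) ∧ ∀ i, j < i → s i ≠ s j ∧ s i ≠ t j
  symm := ⟨fun _ _ ⟨j, h1, h2, h3⟩ => ⟨j, h1.symm, fun i hi => (h2 i hi).symm, fun i hi =>
    h2 i hi.ne' ▸ (h3 i hi).symm⟩⟩
  loopless := ⟨fun _ ⟨_, h, _⟩ => h rfl⟩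

/-- A drawing of a graph in the plane: distinct points for the vertices, simple arcs for the
edges, no arc through a vertex other than its ends, any two arcs meet in finitely many points. -/
structure Drawing {V : Type} (G : SimpleGraph V) where
  pos : V → ℝ × ℝ
  arc : G.edgeSet → ℝ → ℝ × ℝ
  pos_inj : Function.Injective pos
  cont : ∀ e, ContinuousOn (arc e) (Icc 0 1)
  simple : ∀ e, InjOn (arc e) (Icc 0 1)
  ends : ∀ e, s(arc e 0, arc e 1) = e.1.map pos
  avoid : ∀ e v, v ∉ e.1 → pos v ∉ arc e '' Icc 0 1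
  finite : ∀ e f, e ≠ f → (arc e '' Icc 0 1 ∩ arc f '' Icc 0 1).Finite

/-- The number of crossings: pairs of an unordered pair of distinct edges and a point interior
to both arcs. -/
noncomputable def Drawing.crossings {V : Type} {G : SimpleGraph V} (D : Drawing G) : ℕ :=
  {c : Sym2 G.edgeSet × (ℝ × ℝ) | ¬c.1.IsDiag ∧ ∀ e ∈ c.1, c.2 ∈ D.arc e '' Ioo 0 1}.ncard

/-- The crossing number: the least number of crossings of a drawing. -/
noncomputable def crossingNumber {V : Type} (G : SimpleGraph V) : ℕ :=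
  sInf (range fun D : Drawing G => D.crossings)

end Pool.Agent.Lib.MP_945667_co
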