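import Pool.Agent.Lib.MP_945667_co.H98Defs
import Pool.Agent.Lib.MP_25cd9a_co.Discretize

/-!
The geometric input: nine curves joining three points to three points have two independent
members that meet; drawings with all vertices on a line.
-/

namespace Pool.Agent.Lib.MP_945667_co

open Set Pool.Agent.Lib.MP_25cd9a_co

theorem plane_k33 (a b : Fin 3 → ℝ × ℝ) (K : Fin 3 × Fin 3 → Set (ℝ × ℝ))
    (hc : ∀ i, IsCompact (K i)) (hp : ∀ i, IsPreconnected (K i)) (ha : ∀ i k, a i ∈ K (i, k))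
    (hb : ∀ i k, b k ∈ K (i, k)) :
    ∃ i j k l, i < j ∧ k ≠ l ∧ (K (i, k) ∩ K (j, l)).Nonempty := by
  by_contra hne
  push Not at hne
  obtain ⟨η, hη, hsep⟩ := exists_sep K hc
  have hε : 0 < η / 3 := by positivity
  choose c hc using near_exists hε
  have hw : ∀ i k, ∃ p : (grid.induce univ).Walk ⟨c (a i), trivial⟩ ⟨c (b k), trivial⟩,
      ∀ z ∈ p.support, z ∈ Subtype.val ⁻¹' cells (η / 3) (K (i, k)) := fun i k =>
    ((cells_conn hε (hp (i, k))).preimage (subset_univ _) _ ⟨_, ha i k, hc _⟩ _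
      ⟨_, hb i k, hc _⟩).walk ⟨_, ha i k, hc _⟩
  choose p hp using hw
  have hd : ∀ i j k l, i < j → k ≠ l → ∀ x ∈ (p i k).support, ∀ y ∈ (p j l).support, x ≠ y := by
    rintro i j k l hij hkl x hx y hy rfl
    obtain ⟨u, hu, h1⟩ := hp _ _ x hx
    obtain ⟨v, hv, h2⟩ := hp _ _ x hy
    have h3 := hsep _ _ (disjoint_iff_inter_eq_empty.2 (hne i j k l hij hkl)) u hu v hv
    have h4 := dist_triangle_right u v (pt (η / 3) x)
    linarith
  have H := grid_vk univ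
  have e := fun i j k l hij hkl => H.square (p i k) (p j l) (hd i j k l hij hkl)
  have an := fun k l hkl => H.anti ⟨c (b k), trivial⟩ ⟨c (b l), trivial⟩
    (hd 0 1 k l (by decide) hkl _ (p 0 k).end_mem_support _ (p 1 l).end_mem_support)
  have e0 := e 0 1 0 1 (by decide) (by decide)
  have e1 := e 0 1 0 2 (by decide) (by decide)
  have e2 := e 0 2 0 1 (by decide) (by decide)
  have e3 := e 0 2 0 2 (by decide) (by decide)
  have e4 := e 0 1 1 0 (by decide) (by decide)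
  have e5 := e 0 1 1 2 (by decide) (by decide)
  have e6 := e 0 2 1 0 (by decide) (by decide)
  have e7 := e 0 2 1 2 (by decide) (by decide)
  have e8 := e 0 1 2 0 (by decide) (by decide)
  have e9 := e 0 1 2 1 (by decide) (by decide)
  have e10 := e 0 2 2 0 (by decide) (by decide)
  have e11 := e 0 2 2 1 (by decide) (by decide)
  have e12 := e 1 2 0 1 (by decide) (by decide)
  have e13 := e 1 2 0 2 (by decide) (by decide)
  have e14 := e 1 2 1 0 (by decide) (by decide)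
  have e15 := e 1 2 1 2 (by decide) (by decide)
  have e16 := e 1 2 2 0 (by decide) (by decide)
  have e17 := e 1 2 2 1 (by decide) (by decide)
  have a1 := an 0 1 (by decide)
  have a2 := an 0 2 (by decide)
  have a3 := an 1 2 (by decide)
  have h2 := two_zero
  have h1 : (1 : ZMod 2) ≠ 0 := by decide
  grind

variable {V : Type} {G : SimpleGraph V}

/-- In every system of nine routes two independent routes share a vertex or contain a pair of
edges in `C`. -/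
def K33 (G : SimpleGraph V) (C : Finset (Sym2 V × Sym2 V)) : Prop :=
  ∀ (s t : Fin 3 → V) (R : Fin 3 → Fin 3 → Set V),
    (∀ i k, s i ∈ R i k ∧ Rch G (R i k) (s i) (t k)) → ∃ i j k l, i < j ∧ k ≠ l ∧
      ((R i k ∩ R j l).Nonempty ∨ ∃ c ∈ C, (∀ v ∈ c.1, v ∈ R i k) ∧ ∀ v ∈ c.2, v ∈ R j l)

theorem Drawing.end_mem (D : Drawing G) (e : G.edgeSet) {v : V} (hv : v ∈ e.1) :
    D.pos v ∈ D.arc e '' Icc 0 1 := by
  have : D.pos v ∈ s(D.arc e 0, D.arc e 1) := D.ends e ▸ Sym2.mem_map.2 ⟨v, hv, rfl⟩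
  rcases Sym2.mem_iff.1 this with h | h
  exacts [⟨0, by simp, h.symm⟩, ⟨1, by simp, h.symm⟩]

theorem Drawing.inner (D : Drawing G) (e : G.edgeSet) {x : ℝ × ℝ} (hx : x ∈ D.arc e '' Icc 0 1) :
    x ∈ D.arc e '' Ioo 0 1 ∨ ∃ v ∈ e.1, D.pos v = x := by
  obtain ⟨t, ht, rfl⟩ := hx
  by_cases h : t ∈ Ioo (0 : ℝ) 1
  · exact Or.inl ⟨t, h, rfl⟩
  refine Or.inr (Sym2.mem_map.1 (D.ends e ▸ Sym2.mem_iff.2 ?_))
  rcases ht.1.eq_or_lt with rfl | h0
  · exact Or.inl rfl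
  · exact Or.inr (congrArg _ (le_antisymm ht.2 (not_lt.1 fun h1 => h ⟨h0, h1⟩)))

theorem Drawing.curve (D : Drawing G) {R : Set V} {a b : V} (ha : a ∈ R) (h : Rch G R a b) :
    ∃ K, IsCompact K ∧ IsPreconnected K ∧ D.pos a ∈ K ∧ D.pos b ∈ K ∧ ∀ x ∈ K,
      (∃ v ∈ R, D.pos v = x) ∨ ∃ e : G.edgeSet, (∀ v ∈ e.1, v ∈ R) ∧ x ∈ D.arc e '' Ioo 0 1 := by
  induction h with
  | refl => exact ⟨{D.pos a}, isCompact_singleton, isPreconnected_singleton, rfl, rfl,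
      fun x hx => Or.inl ⟨a, ha, hx.symm⟩⟩
  | @tail b c _ hbc ih =>
    obtain ⟨K, h1, h2, h3, h4, h5⟩ := ih
    let e : G.edgeSet := ⟨s(b, c), hbc.1⟩
    have he : ∀ v ∈ e.1, v ∈ R := fun v hv => by
      rcases Sym2.mem_iff.1 hv with rfl | rfl
      exacts [hbc.2.1, hbc.2.2]
    refine ⟨K ∪ D.arc e '' Icc 0 1, h1.union (isCompact_Icc.image_of_continuousOn (D.cont e)),
      h2.union _ h4 (D.end_mem e (Sym2.mem_mk_left _ _)) (isPreconnected_Icc.image _ (D.cont e)),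
      Or.inl h3, Or.inr (D.end_mem e (Sym2.mem_mk_right _ _)), ?_⟩
    rintro x (hx | hx)
    · exact h5 x hx
    · rcases D.inner e hx with h6 | ⟨v, hv, h6⟩
      exacts [Or.inr ⟨e, he, h6⟩, Or.inl ⟨v, he v hv, h6⟩]

theorem Drawing.finite_cross [Finite V] (D : Drawing G) :
    {c : Sym2 G.edgeSet × (ℝ × ℝ) | ¬c.1.IsDiag ∧ ∀ e ∈ c.1, c.2 ∈ D.arc e '' Ioo 0 1}.Finite := by
  refine (finite_iUnion fun e : G.edgeSet => finite_iUnion fun f : G.edgeSet =>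
    finite_iUnion fun h : e ≠ f => (finite_singleton s(e, f)).prod (D.finite e f h)).subset ?_
  rintro ⟨c, x⟩ ⟨h1, h2⟩
  induction c using Sym2.ind with
  | _ e f =>
    simp only [mem_iUnion]
    exact ⟨e, f, fun h => h1 (Sym2.mk_isDiag_iff.2 h), rfl,
      image_mono Ioo_subset_Icc_self (h2 e (Sym2.mem_mk_left _ _)),
      image_mono Ioo_subset_Icc_self (h2 f (Sym2.mem_mk_right _ _))⟩

theorem Drawing.exists_k33 [Finite V] (D : Drawing G) :
    ∃ C, K33 G C ∧ C.card ≤ 2 * D.crossings := by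
  classical
  have := Fintype.ofFinite V
  refine ⟨Finset.univ.filter fun c => ∃ e f : G.edgeSet, e ≠ f ∧ c = (e.1, f.1) ∧
    (D.arc e '' Ioo 0 1 ∩ D.arc f '' Ioo 0 1).Nonempty, fun s t R hR => ?_, ?_⟩
  · choose K h1 h2 h3 h4 h5 using fun i : Fin 3 × Fin 3 => D.curve (hR i.1 i.2).1 (hR i.1 i.2).2
    obtain ⟨i, j, k, l, hij, hkl, x, hx, hx'⟩ := plane_k33 (D.pos ∘ s) (D.pos ∘ t) K h1 h2
      (fun i k => h3 (i, k)) fun i k => h4 (i, k)
    refine ⟨i, j, k, l, hij, hkl, ?_⟩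
    rw [or_iff_not_imp_left]
    intro hn
    have key : ∀ (v : V) (e : G.edgeSet), D.pos v ∈ D.arc e '' Ioo 0 1 → v ∈ e.1 := fun v e h =>
      by_contra fun hv => D.avoid e v hv (image_mono Ioo_subset_Icc_self h)
    rcases h5 _ x hx with ⟨v, hv, rfl⟩ | ⟨e, he, h6⟩ <;>
      rcases h5 _ _ hx' with ⟨w, hw, h7⟩ | ⟨f, hf, h7⟩
    · exact (hn ⟨v, hv, D.pos_inj h7 ▸ hw⟩).elim
    · exact (hn ⟨v, hv, hf v (key v f h7)⟩).elim
    · exact (hn ⟨w, he w (key w e (h7 ▸ h6)), hw⟩).elim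
    · refine ⟨(e.1, f.1), Finset.mem_filter.2 ⟨Finset.mem_univ _, e, f, ?_, rfl, x, h6, h7⟩, he, hf⟩
      rintro rfl
      exact hn ⟨_, he _ e.1.out_fst_mem, hf _ e.1.out_fst_mem⟩
  · rw [Drawing.crossings, ncard_eq_toFinset_card _ D.finite_cross]
    refine (Finset.card_le_mul_card_image_of_maps_to (f := fun c => s(c.1, c.2))
      (t := D.finite_cross.toFinset.image fun c => c.1.map Subtype.val) ?_ 2 ?_).trans
      (Nat.mul_le_mul_left 2 Finset.card_image_le)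
    · simp only [Finset.mem_filter, Finset.mem_univ, true_and, Finset.mem_image,
        Finite.mem_toFinset]
      rintro - ⟨e, f, h, rfl, x, h1, h2⟩
      refine ⟨(s(e, f), x), ⟨fun h' => h (Sym2.mk_isDiag_iff.1 h'), fun g hg => ?_⟩, rfl⟩
      rcases Sym2.mem_iff.1 hg with rfl | rfl
      exacts [h1, h2]
    · intro b _
      induction b using Sym2.ind with
      | _ e f =>
        refine (Finset.card_le_card (t := {(e, f), (f, e)}) fun c hc => ?_).trans Finset.card_le_two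
        rcases Sym2.eq_iff.1 (Finset.mem_filter.1 hc).2 with ⟨rfl, rfl⟩ | ⟨rfl, rfl⟩ <;> simp

theorem K33.comap {W : Type} [DecidableEq V] [Fintype W] {H : SimpleGraph W}
    {C : Finset (Sym2 V × Sym2 V)} (h : K33 G C) (φ : W → V) (hφ : Function.Injective φ)
    (hom : ∀ x y, H.Adj x y → G.Adj (φ x) (φ y)) :
    K33 H (Finset.univ.filter fun c => (c.1.map φ, c.2.map φ) ∈ C) := fun s t R hR => by
  obtain ⟨i, j, k, l, hij, hkl, h1⟩ := h (φ ∘ s) (φ ∘ t) (fun i k => φ '' R i k) fun i k =>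
    ⟨mem_image_of_mem _ (hR i k).1, (hR i k).2.ind (fun y => Rch G _ _ (φ y)) (Rch.refl _ _)
      fun x y hx hy hxy ih => ih.trans
        (Rch.step (hom x y hxy) (mem_image_of_mem _ hx) (mem_image_of_mem _ hy))⟩
  refine ⟨i, j, k, l, hij, hkl, h1.imp (fun h2 => ?_) ?_⟩
  · rwa [← image_inter hφ, image_nonempty] at h2
  · rintro ⟨⟨e, f⟩, hc, h2, h3⟩
    have key : ∀ (e : Sym2 V) (S : Set W), (∀ v ∈ e, v ∈ φ '' S) →
        ∃ e' : Sym2 W, e'.map φ = e ∧ ∀ v ∈ e', v ∈ S := fun e S he => by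
      induction e using Sym2.ind with
      | _ x y =>
        obtain ⟨x, hx, rfl⟩ := he x (Sym2.mem_mk_left _ _)
        obtain ⟨y, hy, rfl⟩ := he y (Sym2.mem_mk_right _ _)
        exact ⟨s(x, y), rfl, fun v hv => by rcases Sym2.mem_iff.1 hv with rfl | rfl <;> assumption⟩
    obtain ⟨e, rfl, h4⟩ := key e _ h2
    obtain ⟨f, rfl, h5⟩ := key f _ h3
    exact ⟨(e, f), Finset.mem_filter.2 ⟨Finset.mem_univ _, hc⟩, h4, h5⟩

open Classical in
/-- A drawing with the vertices on a line and parabolic arcs. -/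
theorem exists_drawing [Fintype V] (G : SimpleGraph V) (x : V → ℝ) (hx : Function.Injective x) :
    ∃ D : Drawing G, D.crossings ≤ (Finset.univ.filter fun c : (V × V) × V × V =>
      G.Adj c.1.1 c.1.2 ∧ G.Adj c.2.1 c.2.2 ∧ x c.1.1 ≤ x c.2.1 ∧ x c.2.1 ≤ x c.1.2 ∧
        x c.1.2 ≤ x c.2.2).card := by
  have ex : ∀ e : G.edgeSet, ∃ u v, e.1 = s(u, v) ∧ x u < x v := by
    rintro ⟨e, he⟩
    induction e using Sym2.ind with
    | _ u v =>
      rcases (hx.ne (G.ne_of_adj he)).lt_or_gt with h | h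
      exacts [⟨u, v, rfl, h⟩, ⟨v, u, Sym2.eq_swap, h⟩]
  choose lo hi he hlt using ex
  let arc : G.edgeSet → ℝ → ℝ × ℝ := fun e t =>
    (x (lo e) + t * (x (hi e) - x (lo e)), t * (1 - t) * (x (hi e) - x (lo e)) ^ 2)
  have h1 : ∀ e, ∀ z ∈ arc e '' Icc 0 1, x (lo e) ≤ z.1 ∧ z.1 ≤ x (hi e) ∧
      z.2 = (z.1 - x (lo e)) * (x (hi e) - z.1) := by
    rintro e - ⟨t, ⟨h0, h1⟩, rfl⟩
    have := hlt e
    refine ⟨?_, ?_, ?_⟩ <;> simp only [arc] <;> nlinarith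
  have h2 : ∀ e f, x (lo e) = x (lo f) → x (hi e) = x (hi f) → e = f := fun e f a b =>
    Subtype.ext (by rw [he, he, hx a, hx b])
  have h3 : ∀ e f, e ≠ f → (arc e '' Icc 0 1 ∩ arc f '' Icc 0 1).Subsingleton := by
    rintro e f hef ⟨y, y'⟩ ⟨a, b⟩ ⟨z, z'⟩ ⟨c, d⟩
    obtain ⟨a1, a2, a3⟩ := h1 _ _ a
    obtain ⟨b1, b2, b3⟩ := h1 _ _ b
    obtain ⟨-, -, c3⟩ := h1 _ _ c
    obtain ⟨-, -, d3⟩ := h1 _ _ d
    simp only at a1 a2 a3 b1 b2 b3 c3 d3
    by_cases hyz : y = z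
    · rw [a3, c3, hyz]
    have h4 : x (lo e) + x (hi e) = x (lo f) + x (hi f) :=
      mul_left_cancel₀ (sub_ne_zero.2 hyz) (by linear_combination b3 - a3 + c3 - d3)
    have h5 : (x (lo e) - x (lo f)) * (x (lo e) - x (hi f)) = 0 := by
      linear_combination (b3 - a3) + (x (lo e) - y) * h4
    have := hlt e
    have := hlt f
    rcases mul_eq_zero.1 h5 with h6 | h6
    · exact (hef (h2 e f (by linarith) (by linarith))).elim
    · linarith
  refine ⟨⟨fun v => (x v, 0), arc, fun u v h => hx (congrArg Prod.fst h),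
    fun e => by fun_prop, fun e s _ t _ h => ?_, fun e => by simp [he, arc],
    fun e v hv h => hv ?_, fun e f h => (h3 e f h).finite⟩, ?_⟩
  · exact mul_right_cancel₀ (sub_pos.2 (hlt e)).ne' (add_left_cancel (congrArg Prod.fst h))
  · rw [he, Sym2.mem_iff]
    rcases mul_eq_zero.1 (h1 e _ h).2.2.symm with h4 | h4
    exacts [Or.inl (hx (by linarith)), Or.inr (hx (by linarith))]
  have h4 : ∀ c ∈ {c : Sym2 G.edgeSet × (ℝ × ℝ) | ¬c.1.IsDiag ∧
      ∀ e ∈ c.1, c.2 ∈ arc e '' Ioo 0 1}, ∃ e f, c.1 = s(e, f) ∧ x (lo e) ≤ x (lo f) ∧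
        x (lo f) ≤ x (hi e) ∧ x (hi e) ≤ x (hi f) := by
    rintro ⟨c, z⟩ ⟨-, h⟩
    induction c using Sym2.ind with
    | _ e f =>
      obtain ⟨t, ht, h5⟩ := h e (Sym2.mem_mk_left _ _)
      obtain ⟨a1, a2, a3⟩ := h1 _ _ (image_mono Ioo_subset_Icc_self (h e (Sym2.mem_mk_left _ _)))
      obtain ⟨b1, b2, b3⟩ := h1 _ _ (image_mono Ioo_subset_Icc_self (h f (Sym2.mem_mk_right _ _)))
      simp only at a1 a2 a3 b1 b2 b3 h5
      have h6 : 0 < z.2 := by
        have := sub_pos.2 (hlt e)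
        have := ht.1
        have := sub_pos.2 ht.2
        rw [← h5]; positivity
      by_cases h7 : x (lo e) ≤ x (lo f) ∧ x (hi e) ≤ x (hi f)
      · exact ⟨e, f, rfl, h7.1, by linarith, h7.2⟩
      refine ⟨f, e, Sym2.eq_swap, not_lt.1 fun h8 => ?_, by linarith, not_lt.1 fun h8 => ?_⟩
      · have h9 : x (hi f) < x (hi e) := not_le.1 fun h9 => h7 ⟨h8.le, h9⟩
        nlinarith
      · have h9 : x (lo f) < x (lo e) := not_le.1 fun h9 => h7 ⟨h9, h8.le⟩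
        nlinarith
  have h4' : ∀ c : Sym2 G.edgeSet × (ℝ × ℝ), ∃ e f, (¬c.1.IsDiag ∧
      ∀ e ∈ c.1, c.2 ∈ arc e '' Ioo 0 1) → c.1 = s(e, f) ∧ x (lo e) ≤ x (lo f) ∧
        x (lo f) ≤ x (hi e) ∧ x (hi e) ≤ x (hi f) := fun c => by
    have : Nonempty G.edgeSet := ⟨c.1.out.1⟩
    have := h4 c
    choose! e f h using this
    exact ⟨e, f, h⟩
  choose e f h5 using h4'
  rw [← ncard_coe_finset]
  refine ncard_le_ncard_of_injOn (fun c => ((lo (e c), hi (e c)), lo (f c), hi (f c)))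
    (fun c hc => ?_) fun c hc c' hc' h => ?_
  · have ad : ∀ e, G.Adj (lo e) (hi e) := fun e => by have := e.2; rwa [he] at this
    simpa using ⟨ad _, ad _, (h5 c hc).2⟩
  · simp only [Prod.mk.injEq] at h
    have h6 := h2 _ _ (congrArg x h.1.1) (congrArg x h.1.2)
    have h7 := h2 _ _ (congrArg x h.2.1) (congrArg x h.2.2)
    have h8 : c.1 = c'.1 := by rw [(h5 c hc).1, (h5 c' hc').1, h6, h7]
    have h9 : ∀ c' ∈ {c : Sym2 G.edgeSet × (ℝ × ℝ) | ¬c.1.IsDiag ∧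
        ∀ e ∈ c.1, c.2 ∈ arc e '' Ioo 0 1}, c'.1 = s(e c, f c) →
        c'.2 ∈ arc (e c) '' Icc 0 1 ∩ arc (f c) '' Icc 0 1 := fun c' hc' h =>
      ⟨image_mono Ioo_subset_Icc_self (hc'.2 _ (h ▸ Sym2.mem_mk_left _ _)),
        image_mono Ioo_subset_Icc_self (hc'.2 _ (h ▸ Sym2.mem_mk_right _ _))⟩
    exact Prod.ext h8 (h3 _ _ (fun h => hc.1 ((h5 c hc).1 ▸ Sym2.mk_isDiag_iff.2 h))
      (h9 c hc (h5 c hc).1) (h9 c' hc' (h8 ▸ (h5 c hc).1)))

end Pool.Agent.Lib.MP_945667_co
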