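import Pool.Agent.Lib.MP_945667_co.H98Route

/-!
The lower bound.
-/

namespace Pool.Agent.Lib.MP_945667_co

open Finset Equiv Pool.Agent.Lib.MP_25cd9a_co
open Fin hiding sum_const prod_const

variable {p q m : ℕ}

/-- The positions of the `K` largest disks. -/
def pre {α : Type} (K : ℕ) (z : Fin (m + K) → α) (i : Fin K) : α :=
  z (Fin.castLE (Nat.le_add_left K m) i)

/-- Concatenation. -/
def app {α : Type} : (K : ℕ) → (Fin K → α) → (Fin m → α) → Fin (m + K) → α
  | 0, _, y => y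
  | K + 1, w, y => (cons (w 0) (app K (tail w) y) : Fin (m + K + 1) → α)

theorem pre_cons {α : Type} (K : ℕ) (c : α) (z : Fin (m + K) → α) :
    pre (m := m) (K + 1) (cons c z : Fin (m + K + 1) → α) = cons c (pre K z) :=
  (cons_self_tail _).symm

theorem pre_app {α : Type} : ∀ (K : ℕ) (w : Fin K → α) (y : Fin m → α), pre K (app K w y) = w
  | 0, _, _ => Subsingleton.elim _ _
  | K + 1, w, y => by rw [app, pre_cons, pre_app K, cons_self_tail]

theorem app_inj {α : Type} : ∀ (K : ℕ) (w : Fin K → α), (app (m := m) K w).Injective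
  | 0, _ => fun _ _ h => h
  | K + 1, _ => fun _ _ h => app_inj K _ (cons_right_injective _ h)

theorem app_adj : ∀ (K : ℕ) (w : Fin K → Fin p) (x y : Fin m → Fin p), (hanoi p m).Adj x y →
    (hanoi p (m + K)).Adj (app K w x) (app K w y)
  | 0, _, _, _, h => h
  | K + 1, _, x, y, h => adj_succ.2 (.inl ⟨rfl, app_adj K _ x y h⟩)

theorem tw_pre : ∀ (K : ℕ) {a u v : Fin p} {s z : Fin (m + K) → Fin p}, Tw (m + K) a u v s z →
    Tw K a u v (pre K s) (pre K z)
  | 0, _, _, _, _, _, _ => trivial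
  | K + 1, _, _, _, _, _, h => Or.imp (And.imp_right (Or.imp (And.imp_right (tw_pre K))
      (And.imp_right (tw_pre K)))) (And.imp_right (And.imp_right (tw_pre K))) h

theorem rt_pre : ∀ (K : ℕ) {u v : Fin p} {s t z : Fin (m + K) → Fin p}, Rt (m + K) u v s t z →
    Rt K u v (pre K s) (pre K t) (pre K z)
  | 0, _, _, _, _, _, _ => trivial
  | K + 1, _, _, _, _, _, h => Or.imp (And.imp_right (Or.imp (tw_pre K) (tw_pre K)))
      (And.imp_right (rt_pre K)) h

theorem sum_pre {α : Type} [Fintype α] : ∀ (K : ℕ) (f : (Fin K → α) → ℕ),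
    ∑ z : Fin (m + K) → α, f (pre K z) = Fintype.card α ^ m * ∑ w, f w
  | 0, f => by simp [Subsingleton.elim (pre 0 _) default]
  | K + 1, f => by
    refine (sum_cons (d := m + K) _).trans ?_
    rw [sum_cons, mul_sum]
    exact sum_congr rfl fun c _ => by
      simpa only [pre_cons] using sum_pre K fun w => f (cons c w)

theorem pair_sum {S : Type} [Fintype S] {i j : Fin 3} (h : i ≠ j) (g : S → S → ℕ) :
    ∑ s : Fin 3 → S, g (s i) (s j) = Fintype.card S * ∑ a, ∑ b, g a b := by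
  have e : ∀ f : (Fin 3 → S) → ℕ, ∑ s, f s = ∑ a, ∑ b, ∑ c, f ![a, b, c] := fun f => by
    simp only [sum_cons, Fintype.sum_unique]; rfl
  have hc : ∑ a, ∑ b, g b a = ∑ a, ∑ b, g a b := sum_comm
  rw [e]
  fin_cases i <;> fin_cases j <;> simp at h <;> simp [← mul_sum, hc]

theorem avg {S T : Type} [Fintype S] [Fintype T] [Nonempty S] [Nonempty T]
    (β : S × T → S × T → Prop) (h : ∀ (s : Fin 3 → S) (t : Fin 3 → T),
      ∃ i j k l, i < j ∧ k ≠ l ∧ β (s i, t k) (s j, t l)) :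
    (Fintype.card S * Fintype.card T) ^ 2 ≤ 18 * ∑ r, ∑ r', ind (β r r') := by
  let I := univ.filter fun x : (Fin 3 × Fin 3) × Fin 3 × Fin 3 => x.1.1 < x.1.2 ∧ x.2.1 ≠ x.2.2
  have h1 : ∑ s : Fin 3 → S, ∑ t : Fin 3 → T, 1 ≤ ∑ s : Fin 3 → S, ∑ t : Fin 3 → T,
      ∑ x ∈ I, ind (β (s x.1.1, t x.2.1) (s x.1.2, t x.2.2)) :=
    sum_le_sum fun s _ => sum_le_sum fun t _ => by
      obtain ⟨i, j, k, l, h1, h2, h3⟩ := h s t
      refine le_trans ?_ (single_le_sum (fun _ _ => Nat.zero_le _)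
        (show ((i, j), k, l) ∈ I from mem_filter.2 ⟨mem_univ _, h1, h2⟩))
      simp [ind, h3]
  have h2 : ∀ x ∈ I, ∑ s : Fin 3 → S, ∑ t : Fin 3 → T,
      ind (β (s x.1.1, t x.2.1) (s x.1.2, t x.2.2)) =
        Fintype.card S * Fintype.card T * ∑ r, ∑ r', ind (β r r') := fun x hx => by
    obtain ⟨h1, h2⟩ := (mem_filter.1 hx).2
    rw [pair_sum h1.ne fun a b => ∑ t : Fin 3 → T, ind (β (a, t x.2.1) (b, t x.2.2)), mul_assoc]
    simp only [fun a b => pair_sum h2 fun c d => ind (β (a, c) (b, d)), ← mul_sum,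
      Fintype.sum_prod_type]
    congr 2
    exact sum_congr rfl fun a _ => sum_comm
  simp only [sum_comm (t := I), sum_congr rfl h2, sum_const, card_univ, Fintype.card_fun,
    Fintype.card_fin, smul_eq_mul, show I.card = 18 by decide] at h1
  refine Nat.le_of_mul_le_mul_left ?_ (Nat.mul_pos (Fintype.card_pos (α := S))
    (Fintype.card_pos (α := T)))
  nlinarith

theorem bad_le {R W : Type} [Fintype R] (A B : R → W → Prop) (C : Finset W) :
    ∑ r, ∑ r', ind (∃ w ∈ C, A r w ∧ B r' w) ≤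
      ∑ w ∈ C, (∑ r, ind (A r w)) * ∑ r, ind (B r w) := by
  simp only [sum_mul_sum, ← ind_and, ← sum_comm (t := C)]
  refine sum_le_sum fun r _ => sum_le_sum fun r' _ => ?_
  by_cases h : ∃ w ∈ C, A r w ∧ B r' w
  · obtain ⟨w, hw, h⟩ := h
    exact le_trans (ind_mono fun _ => h)
      (single_le_sum (f := fun w => ind (A r w ∧ B r' w)) (fun _ _ => Nat.zero_le _) hw)
  · simp [ind, h]

/-- The pairs of edges that do not lie in one copy of depth `K`. -/
noncomputable def far (K : ℕ)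
    (C : Finset (Sym2 (Fin (m + K) → Fin p) × Sym2 (Fin (m + K) → Fin p))) :=
  C.filter fun c => pre K c.1.out.1 ≠ pre K c.2.out.1

theorem far_lower {K : ℕ} (hq : 0 < q) (hK : 72 * (q + 2) ^ 2 * (q + 1) ^ K ≤ q ^ (2 * K)) {C}
    (h : K33 (hanoi (q + 2) (m + K)) C) : q ^ (2 * (m + K)) ≤ 36 * (q + 2) ^ 2 * (far K C).card := by
  have : Nonempty (Fin q) := ⟨⟨0, hq⟩⟩
  let σ : Fin q → Fin (q + 2) := fun c => c.succ.succ
  have hσ : σ.Injective := fun _ _ h => succ_injective _ (succ_injective _ h)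
  have av : Av 0 1 σ := ⟨Fin.zero_ne_one, fun c => ⟨succ_ne_zero _, succ_succ_ne_one _⟩⟩
  let A : (Fin (m + K) → Fin q) × (Fin (m + K) → Fin (q + 2)) → (Fin K → Fin (q + 2)) → Prop :=
    fun r w => Rt K 0 1 (σ ∘ pre K r.1) (pre K r.2) w
  let B : (Fin (m + K) → Fin q) × (Fin (m + K) → Fin (q + 2)) → _ → Prop :=
    fun r z => Rt (m + K) 0 1 (σ ∘ r.1) r.2 z
  have h1 := avg (fun r r' => (∃ w ∈ univ, A r w ∧ A r' w) ∨
      ∃ c ∈ far K C, B r c.1.out.1 ∧ B r' c.2.out.1) fun s t => by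
    obtain ⟨i, j, k, l, hij, hkl, h1⟩ := h (fun i => σ ∘ s i) t (fun i k => {z | B (s i, t k) z})
      fun i k => ⟨rt_self _ _ _ _ _, rt_rch _ _ _ _ _ (av.comp _)⟩
    refine ⟨i, j, k, l, hij, hkl, ?_⟩
    rcases h1 with ⟨z, h1, h2⟩ | ⟨c, hc, h1, h2⟩
    · exact .inl ⟨pre K z, mem_univ _, rt_pre K h1, rt_pre K h2⟩
    have h3 := h1 _ c.1.out_fst_mem
    have h4 := h2 _ c.2.out_fst_mem
    by_cases e : pre K c.1.out.1 = pre K c.2.out.1
    · exact .inl ⟨_, mem_univ _, rt_pre K h3, e ▸ rt_pre K h4⟩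
    · exact .inr ⟨c, mem_filter.2 ⟨hc, e⟩, h3, h4⟩
  have h2 : ∀ w, ∑ r, ind (A r w) =
      (q * (q + 2)) ^ m * ∑ s : Fin K → Fin q, ∑ t, ind (Rt K 0 1 (σ ∘ s) t w) := fun w => by
    simp only [A, Fintype.sum_prod_type, fun s => sum_pre (m := m) K fun t =>
      ind (Rt K 0 1 s t w), ← mul_sum]
    rw [sum_pre K fun s => ∑ t, ind (Rt K 0 1 (σ ∘ s) t w)]
    simp only [Fintype.card_fin, mul_pow]
    ring
  have h3 : ∑ w, (∑ r, ind (A r w)) * ∑ r, ind (A r w) ≤ (q * (q + 2)) ^ m * (q + 2) ^ (K + 1) *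
      ((q * (q + 2)) ^ m * (2 * (q + 2) ^ (K + 1) * (q + 1) ^ K)) := by
    refine (sum_le_sum fun w _ => Nat.mul_le_mul_right _ ((h2 w).trans_le
      (Nat.mul_le_mul_left _ (rt_load K 0 1 σ hσ av w)))).trans ?_
    simp only [← mul_sum, h2]
    refine Nat.mul_le_mul_left _ (Nat.mul_le_mul_left _ ?_)
    exact (sum_comm.trans (sum_congr rfl fun s _ => sum_comm)).trans_le (rt_total K 0 1 σ hσ)
  have h4 : ∀ z, ∑ r, ind (B r z) ≤ (q + 2) ^ (m + K + 1) := fun z => by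
    rw [Fintype.sum_prod_type]; exact rt_load _ 0 1 σ hσ av z
  have h5 := (bad_le (fun r c => B r c.1.out.1) (fun r c => B r c.2.out.1) (far K C)).trans
    (sum_le_card_nsmul _ _ _ fun c _ => Nat.mul_le_mul (h4 _) (h4 _))
  have h6 := h1.trans (Nat.mul_le_mul_left 18 ((sum_le_sum fun r _ => (sum_le_sum fun r' _ =>
    ind_or _ _).trans_eq sum_add_distrib).trans (sum_add_distrib.trans_le
      (add_le_add ((bad_le A A univ).trans h3) h5))))
  simp only [Fintype.card_fun, Fintype.card_fin, smul_eq_mul] at h6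
  refine Nat.le_of_mul_le_mul_left ?_ (Nat.pow_pos (n := 2 * (m + K)) (Nat.succ_pos (q + 1)))
  have h7 := Nat.mul_le_mul_left ((q * (q + 2)) ^ (2 * m) * (q + 2) ^ (2 * K)) hK
  simp only [mul_pow, pow_add, pow_mul', Nat.succ_eq_add_one, add_assoc q,
    one_add_one_eq_two] at h6 h7 ⊢
  nlinarith

theorem split (K : ℕ) {C} (h : K33 (hanoi p (m + K)) C) :
    ∃ D : (Fin K → Fin p) → Finset _, (∀ w, K33 (hanoi p m) (D w)) ∧
      (far K C).card + ∑ w, (D w).card ≤ C.card := by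
  refine ⟨_, fun w => h.comap (app K w) (app_inj K w) (app_adj K w), ?_⟩
  rw [← card_filter_add_card_filter_not (s := C) fun c => pre K c.1.out.1 ≠ pre K c.2.out.1,
    card_eq_sum_card_fiberwise (f := fun c => pre K c.1.out.1) (t := univ)
      (s := C.filter fun c => ¬pre K c.1.out.1 ≠ pre K c.2.out.1) fun _ _ => mem_univ _]
  refine Nat.add_le_add_left (sum_le_sum fun w _ => card_le_card_of_injOn
    (fun c => (c.1.map (app K w), c.2.map (app K w))) (fun c hc => ?_) fun c _ c' _ e => ?_) _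
  · have key : ∀ e : Sym2 (Fin m → Fin p), pre K (e.map (app K w)).out.1 = w := fun e => by
      obtain ⟨y, -, hy⟩ := Sym2.mem_map.1 (e.map (app K w)).out_fst_mem
      rw [← hy, pre_app]
    simpa [key] using hc
  · exact Prod.ext (Sym2.map.injective (app_inj K w) (Prod.ext_iff.1 e).1)
      (Sym2.map.injective (app_inj K w) (Prod.ext_iff.1 e).2)

/-- The order of magnitude. -/
def mag (p d : ℕ) : ℕ := ∑ j ∈ range d, p ^ j * (p - 2) ^ (2 * (d - j))

theorem mag_succ (q d : ℕ) : mag (q + 2) (d + 1) = (q + 2) * mag (q + 2) d + q ^ (2 * (d + 1)) := by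
  simp only [mag, sum_range_succ', mul_sum, Nat.add_sub_add_right, pow_succ']
  simp [mul_assoc]

theorem mag_add (hq : q + 2 ≤ q ^ 2) (m : ℕ) : ∀ K,
    mag (q + 2) (m + K) ≤ (q + 2) ^ K * mag (q + 2) m + K * q ^ (2 * (m + K))
  | 0 => by simp
  | K + 1 => by
    have h1 := Nat.mul_le_mul_left (q + 2) (mag_add hq m K)
    have h2 := Nat.mul_le_mul_left (K * q ^ (2 * (m + K))) hq
    rw [← add_assoc, mag_succ, mul_add 2 (m + K), pow_add, pow_succ (q + 2), mul_one]
    nlinarith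

theorem lower_large {K : ℕ} (hq : 2 ≤ q) (h0 : 0 < K)
    (hK : 72 * (q + 2) ^ 2 * (q + 1) ^ K ≤ q ^ (2 * K)) (d : ℕ) (hd : K ≤ d) :
    ∀ C, K33 (hanoi (q + 2) d) C → mag (q + 2) d ≤ 72 * K * (q + 2) ^ 2 * C.card := by
  induction d using Nat.strong_induction_on with
  | _ d ih =>
    obtain ⟨m, rfl⟩ := Nat.exists_eq_add_of_le' hd
    intro C hC
    have h1 := far_lower (by omega) hK hC
    obtain ⟨D, h2, h3⟩ := split K hC
    have hq' : q + 2 ≤ q ^ 2 := by nlinarith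
    have h4 := Nat.mul_le_mul_left (72 * K * (q + 2) ^ 2) h3
    by_cases hm : K ≤ m
    · have h5 := sum_le_sum fun w (_ : w ∈ univ) => ih m (by omega) hm _ (h2 w)
      simp only [sum_const, card_univ, Fintype.card_fun, Fintype.card_fin, smul_eq_mul,
        ← mul_sum] at h5
      nlinarith [mag_add hq' m K, Nat.mul_le_mul_left K h1,
        Nat.zero_le (K * (q + 2) ^ 2 * (far K C).card)]
    · have h5 := mag_add hq' 0 (m + K)
      rw [zero_add, show mag (q + 2) 0 = 0 from rfl] at h5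
      nlinarith [Nat.mul_le_mul_left (2 * K) h1, Nat.mul_le_mul_right (q ^ (2 * (m + K)))
        (show m + K ≤ 2 * K by omega), Nat.zero_le (72 * K * (q + 2) ^ 2 * ∑ w, (D w).card)]

theorem rch_of_chain {V : Type} {G : SimpleGraph V} {S : Set V} {b : V} : ∀ (l : List V) (a : V),
    List.IsChain G.Adj (a :: l ++ [b]) → (∀ x ∈ a :: l ++ [b], x ∈ S) → Rch G S a b
  | [], a, h, h' => Rch.step (by simpa using h) (h' a (by simp)) (h' b (by simp))
  | c :: l, a, h, h' => (Rch.step (List.isChain_cons_cons.1 h).1 (h' a (by simp))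
      (h' c (by simp))).trans (rch_of_chain l c (List.isChain_cons_cons.1 h).2
        fun x hx => h' x (List.mem_cons_of_mem _ hx))

theorem card_pos_of {V : Type} {G : SimpleGraph V} (s t : Fin 3 → V) (L : Fin 3 → Fin 3 → List V)
    (h1 : ∀ i k, List.IsChain G.Adj (s i :: L i k ++ [t k]))
    (h2 : ∀ i j k l, i < j → k ≠ l → ∀ z ∈ s i :: L i k ++ [t k], z ∉ s j :: L j l ++ [t l]) {C}
    (h : K33 G C) : 1 ≤ C.card := by
  obtain ⟨i, j, k, l, hij, hkl, ⟨z, a, b⟩ | ⟨c, hc, -⟩⟩ := h s t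
    (fun i k => {z | z ∈ s i :: L i k ++ [t k]}) fun i k =>
      ⟨by simp, rch_of_chain _ _ (h1 i k) fun _ h => h⟩
  exacts [(h2 i j k l hij hkl z a b).elim, card_pos.2 ⟨c, hc⟩]

instance decAdj (p d : ℕ) : DecidableRel (hanoi p d).Adj := fun s t =>
  inferInstanceAs (Decidable (∃ j, s j ≠ t j ∧ (∀ i, i ≠ j → s i = t i) ∧
    ∀ i, j < i → s i ≠ s j ∧ s i ≠ t j))

theorem lower_small (K : ℕ) (h : ∀ C, K33 (hanoi p m) C → 1 ≤ C.card) {C}
    (hC : K33 (hanoi p (m + K)) C) : p ^ K ≤ C.card := by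
  obtain ⟨D, h2, h3⟩ := split K hC
  have := sum_le_sum fun w (_ : w ∈ univ) => h _ (h2 w)
  simp only [sum_const, card_univ, Fintype.card_fun, Fintype.card_fin, smul_eq_mul] at this
  omega

theorem lower {p d : ℕ} (hp : 4 ≤ p) (hd : p < d) {C} (hC : K33 (hanoi p d) C) :
    mag p d ≤ 1800 * p ^ 2 * C.card := by
  obtain ⟨q, rfl⟩ := Nat.exists_eq_add_of_le' (show 2 ≤ p by omega)
  have big : ∀ K, 0 < K → K ≤ 25 → K ≤ d → 72 * (q + 2) ^ 2 * (q + 1) ^ K ≤ q ^ (2 * K) →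
      mag (q + 2) d ≤ 1800 * (q + 2) ^ 2 * C.card := fun K h0 h1 h2 h3 =>
    (lower_large (by omega) h0 h3 d h2 C hC).trans
      (Nat.mul_le_mul_right _ (Nat.mul_le_mul_right _ (by omega)))
  rcases (by omega : q = 2 ∨ q = 3 ∨ 4 ≤ q) with rfl | rfl | hq
  · by_cases h : 25 ≤ d
    · exact big 25 (by omega) le_rfl h (by norm_num)
    obtain ⟨K, rfl⟩ := Nat.exists_eq_add_of_le (show 3 ≤ d by omega)
    refine le_trans ?_ (Nat.mul_le_mul_left _ (lower_small K (fun C => card_pos_of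
      ![![0, 2, 1], ![0, 1, 2], ![0, 2, 3]] ![![0, 0, 3], ![0, 2, 0], ![3, 2, 1]]
      ![![[![0, 0, 1]], [], []],
        ![[![0, 0, 2]], [![0, 1, 0]], [![3, 1, 2], ![3, 1, 0], ![3, 2, 0]]],
        ![[], [], [![0, 2, 2], ![3, 2, 2]]]] (by decide) (by decide)) hC))
    have : K < 22 := by omega
    interval_cases K <;> decide
  · by_cases h : 10 ≤ d
    · exact big 10 (by omega) (by omega) h (by norm_num)
    obtain ⟨K, rfl⟩ := Nat.exists_eq_add_of_le (show 2 ≤ d by omega)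
    refine le_trans ?_ (Nat.mul_le_mul_left _ (lower_small K (fun C => card_pos_of
      ![![3, 0], ![3, 4], ![3, 1]] ![![3, 2], ![3, 3], ![2, 4]]
      ![![[], [], [![2, 0]]], ![[], [], []], ![[], [], [![2, 1]]]] (by decide) (by decide)) hC))
    have : K < 8 := by omega
    interval_cases K <;> decide
  · refine big 7 (by omega) (by omega) (by omega) (show _ ≤ q ^ 14 from ?_)
    have h1 := Nat.pow_le_pow_left (show 2 * (q + 2) ≤ 3 * q by omega) 2
    have h2 := Nat.pow_le_pow_left (show 4 * (q + 1) ≤ 5 * q by omega) 7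
    have h3 := Nat.mul_le_mul_right (q ^ 9) (Nat.pow_le_pow_left hq 5)
    have h4 := Nat.mul_le_mul h1 h2
    simp only [mul_pow] at h4
    linarith [Nat.zero_le (q ^ 9)]

end Pool.Agent.Lib.MP_945667_co
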