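import Pool.Agent.Lib.MP_945667_co.H98Geo

/-!
Routes in Hanoi graphs with small load.
-/

namespace Pool.Agent.Lib.MP_945667_co

open Finset Equiv Pool.Agent.Lib.MP_25cd9a_co
open Fin hiding sum_const prod_const

variable {p d : ℕ}

theorem adj_succ {z z' : Fin (d + 1) → Fin p} : (hanoi p (d + 1)).Adj z z' ↔
    (z 0 = z' 0 ∧ (hanoi p d).Adj (tail z) (tail z')) ∨
      (z 0 ≠ z' 0 ∧ tail z = tail z' ∧ ∀ i, tail z i ≠ z 0 ∧ tail z i ≠ z' 0) := by
  simp only [hanoi, Fin.exists_fin_succ, Fin.forall_fin_succ, ne_eq, not_true_eq_false,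
    false_imp_iff, true_and, succ_ne_zero, not_false_eq_true, true_imp_iff,
    succ_pos, (succ_ne_zero _).symm, succ_inj, Fin.not_lt_zero, succ_lt_succ_iff, tail,
    funext_iff]
  rw [or_comm]
  exact or_congr_left ⟨fun ⟨j, a, ⟨b, c⟩, e⟩ => ⟨b, j, a, c, e⟩,
    fun ⟨b, j, a, c, e⟩ => ⟨j, a, ⟨b, c⟩, e⟩⟩

theorem adj_cons {a b : Fin p} {x : Fin d → Fin p} (h : a ≠ b) (h' : ∀ i, x i ≠ a ∧ x i ≠ b) :
    (hanoi p (d + 1)).Adj (cons a x) (cons b x) := adj_succ.2 (.inr ⟨h, rfl, h'⟩)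

theorem rch_cons {S : Set (Fin d → Fin p)} {S' : Set (Fin (d + 1) → Fin p)} (c : Fin p)
    (h : ∀ x ∈ S, (cons c x : Fin (d + 1) → Fin p) ∈ S') {x y : Fin d → Fin p}
    (hr : Rch (hanoi p d) S x y) : Rch (hanoi p (d + 1)) S' (cons c x) (cons c y) :=
  hr.ind (fun y => Rch (hanoi p (d + 1)) S' (cons c x) (cons c y)) (Rch.refl _ _)
    fun a b ha hb hab ih => ih.trans (Rch.step (adj_succ.2 (Or.inl ⟨rfl, hab⟩)) (h a ha) (h b hb))

/-- The pegs `u` and `v` are free. -/
def Av {ι : Type} (u v : Fin p) (s : ι → Fin p) : Prop := u ≠ v ∧ ∀ i, s i ≠ u ∧ s i ≠ v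

theorem Av.symm {ι : Type} {u v : Fin p} {s : ι → Fin p} (h : Av u v s) : Av v u s :=
  ⟨h.1.symm, fun i => (h.2 i).symm⟩

theorem Av.comp {ι κ : Type} {u v : Fin p} {s : ι → Fin p} (h : Av u v s) (f : κ → ι) :
    Av u v (s ∘ f) := ⟨h.1, fun _ => h.2 _⟩

theorem Av.swap {ι : Type} {a u v : Fin p} {s : ι → Fin p} (h : Av u v s) (ha : a ≠ v) :
    Av a v (swap a u ∘ s) := ⟨ha, fun i => by
  have := h.1
  have := h.2 i
  simp only [Function.comp, swap_apply_def]
  grind⟩

/-- The states visited when the disks on peg `a` move to the free peg `u`, using `v`. -/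
def Tw : (d : ℕ) → (a u v : Fin p) → (s z : Fin d → Fin p) → Prop
  | 0, _, _, _, _, _ => True
  | d + 1, a, u, v, s, z =>
    (s 0 = a ∧ (z 0 = a ∧ Tw d a v u (tail s) (tail z) ∨
      z 0 = u ∧ Tw d v u a (swap a v ∘ tail s) (tail z))) ∨
    s 0 ≠ a ∧ z 0 = s 0 ∧ Tw d a u v (tail s) (tail z)

theorem tw_self : ∀ (d : ℕ) (a u v : Fin p) (s : Fin d → Fin p), Tw d a u v s s
  | 0, _, _, _, _ => trivial
  | d + 1, a, u, v, s => (em (s 0 = a)).imp (fun h => ⟨h, .inl ⟨h, tw_self d a v u _⟩⟩)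
    fun h => ⟨h, rfl, tw_self d a u v _⟩

theorem tw_rch : ∀ (d : ℕ) (a u v : Fin p) (s : Fin d → Fin p), Av u v s →
    Rch (hanoi p d) {z | Tw d a u v s z} s (swap a u ∘ s)
  | 0, a, u, _, s, _ => Subsingleton.elim s (swap a u ∘ s) ▸ Rch.refl _ _
  | d + 1, a, u, v, s, h => by
    have h1 : Av u v (tail s) := h.comp succ
    have e : swap a u ∘ s = cons (swap a u (s 0)) (swap a u ∘ tail s) := (cons_self_tail _).symm
    rw [e]
    conv => arg 3; rw [← cons_self_tail s]
    by_cases hs : s 0 = a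
    · have h2 : a ≠ u := hs ▸ (h.2 0).1
      have h3 := (h1.symm.swap h2).symm
      have h4 : swap v u ∘ swap a v ∘ tail s = swap a u ∘ tail s := funext fun i => by
        have := h1.1
        have := h1.2 i
        simp only [Function.comp, swap_apply_def]
        grind
      rw [hs, swap_apply_left, ← h4]
      refine ((rch_cons a (fun x hx => ?_) (tw_rch d a v u _ h1.symm)).trans
        (Rch.step (adj_cons h2 fun i => (h3.2 i).symm) ?_ ?_)).trans
        (rch_cons u (fun x hx => ?_) (tw_rch d v u a _ h3))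
      · exact .inl ⟨hs, .inl ⟨rfl, hx⟩⟩
      rotate_right
      · exact .inl ⟨hs, .inr ⟨rfl, hx⟩⟩
      · exact .inl ⟨hs, .inl ⟨rfl, (tw_rch d a v u _ h1.symm).mem (tw_self _ _ _ _ _)⟩⟩
      · exact .inl ⟨hs, .inr ⟨rfl, tw_self _ _ _ _ _⟩⟩
    · rw [swap_apply_of_ne_of_ne hs (h.2 0).1]
      exact rch_cons _ (fun x hx => .inr ⟨hs, rfl, hx⟩) (tw_rch d a u v _ h1)

theorem tw_uniq : ∀ (d : ℕ) (a u v : Fin p) (s s' z : Fin d → Fin p), Av u v s → Av u v s' →
    Tw d a u v s z → Tw d a u v s' z → s = s'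
  | 0, _, _, _, _, _, _, _, _, _, _ => Subsingleton.elim _ _
  | d + 1, a, u, v, s, s', z, h, h', h1, h2 => by
    have h3 : Av u v (tail s) := h.comp succ
    have h4 : Av u v (tail s') := h'.comp succ
    have h5 := h.2 0
    have h6 := h'.2 0
    rw [← cons_self_tail s, ← cons_self_tail s']
    rcases h1 with ⟨a1, ⟨a2, a3⟩ | ⟨a2, a3⟩⟩ | ⟨a1, a2, a3⟩ <;>
      rcases h2 with ⟨b1, ⟨b2, b3⟩ | ⟨b2, b3⟩⟩ | ⟨b1, b2, b3⟩ <;> try grind
    · rw [a1, b1, tw_uniq d a v u _ _ _ h3.symm h4.symm a3 b3]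
    · rw [a1, b1, (swap a v).injective.comp_left (tw_uniq d v u a _ _ _
        (h3.symm.swap (a1 ▸ h5.1)).symm (h4.symm.swap (a1 ▸ h5.1)).symm a3 b3)]
    · rw [← a2, ← b2, tw_uniq d a u v _ _ _ h3 h4 a3 b3]

open Classical in
/-- Indicator of a proposition. -/
noncomputable def ind (P : Prop) : ℕ := if P then 1 else 0

theorem ind_mono {P Q : Prop} (h : P → Q) : ind P ≤ ind Q := by
  unfold ind; split_ifs <;> simp_all

theorem ind_or (P Q : Prop) : ind (P ∨ Q) ≤ ind P + ind Q := by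
  unfold ind; split_ifs <;> simp_all

theorem ind_and (P Q : Prop) : ind (P ∧ Q) = ind P * ind Q := by
  unfold ind; split_ifs <;> simp_all

theorem ind_le (P : Prop) : ind P ≤ 1 := by unfold ind; split_ifs <;> simp

theorem sum_ind {α : Type} [Fintype α] (P : α → Prop) [DecidablePred P] :
    ∑ a, ind (P a) = (univ.filter P).card := by
  rw [card_filter]; unfold ind; congr!

theorem sum_ind_eq {α : Type} [Fintype α] (a : α) (n : ℕ) : ∑ b, ind (b = a) * n = n := by
  classical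
  simp [ind]

theorem sum_cons {α : Type} [Fintype α] (f : (Fin (d + 1) → α) → ℕ) :
    ∑ s, f s = ∑ c, ∑ s, f (cons c s) := by
  rw [← (Fin.consEquiv fun _ => α).sum_comp, Fintype.sum_prod_type]; rfl

theorem sum_cons2 {α β : Type} [Fintype α] [Fintype β]
    (f : (Fin (d + 1) → α) → (Fin (d + 1) → β) → ℕ) :
    ∑ s, ∑ t, f s t = ∑ c, ∑ b, ∑ s, ∑ t, f (cons c s) (cons b t) := by
  rw [sum_cons]
  refine sum_congr rfl fun c _ => ?_
  exact (sum_congr rfl fun s _ => sum_cons _).trans sum_comm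

theorem sum_head (a : Fin p) (P : (Fin d → Fin p) → Prop) :
    ∑ z : Fin (d + 1) → Fin p, ind (z 0 = a ∧ P (tail z)) = ∑ z, ind (P z) := by
  simp only [sum_cons, cons_zero, tail_cons, ind_and, ← mul_sum, sum_ind_eq]

theorem tw_card : ∀ (d : ℕ) (a u v : Fin p) (s : Fin d → Fin p),
    ∑ z, ind (Tw d a u v s z) ≤ ∏ i, (1 + ind (s i = a))
  | 0, _, _, _, _ => by simp [ind_le]
  | d + 1, a, u, v, s => by
    rw [Fin.prod_univ_succ]
    by_cases h : s 0 = a
    · have h1 := tw_card d a v u (tail s)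
      have h2 := tw_card d v u a (swap a v ∘ tail s)
      simp only [Function.comp, swap_apply_eq_iff, swap_apply_right] at h2
      simp only [Tw, h, true_and, ne_eq, not_true, false_and, or_false]
      refine (sum_le_sum fun z _ => ind_or _ _).trans ?_
      rw [sum_add_distrib, sum_head, sum_head, show ind True = 1 by simp [ind], add_mul, one_mul]
      exact add_le_add h1 h2
    · simp only [Tw, h, true_and, ne_eq, not_false_iff, false_and, false_or]
      rw [sum_head, show ind False = 0 by simp [ind], add_zero, one_mul]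
      exact tw_card d a u v _

/-- The second tower that has to move. -/
def snd' (a b v : Fin p) : Fin p := if b = a then v else b

theorem snd'_ne {a v : Fin p} (b : Fin p) (h : a ≠ v) : snd' a b v ≠ a := by
  unfold snd'; grind

/-- The route from a state `s` with free pegs `u`, `v` to the state `t`. -/
def Rt : (d : ℕ) → (u v : Fin p) → (s t z : Fin d → Fin p) → Prop
  | 0, _, _, _, _, _ => True
  | d + 1, u, v, s, t, z =>
    (z 0 = s 0 ∧ (Tw d (s 0) u v (tail s) (tail z) ∨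
      Tw d (snd' (s 0) (t 0) v) v (s 0) (swap (s 0) u ∘ tail s) (tail z))) ∨
    z 0 = t 0 ∧ Rt d (snd' (s 0) (t 0) v) (s 0)
      (swap (snd' (s 0) (t 0) v) v ∘ swap (s 0) u ∘ tail s) (tail t) (tail z)

theorem rt_self : ∀ (d : ℕ) (u v : Fin p) (s t : Fin d → Fin p), Rt d u v s t s
  | 0, _, _, _, _ => trivial
  | _ + 1, _, _, _, _ => .inl ⟨rfl, .inl (tw_self _ _ _ _ _)⟩

theorem rt_rch : ∀ (d : ℕ) (u v : Fin p) (s t : Fin d → Fin p), Av u v s →
    Rch (hanoi p d) {z | Rt d u v s t z} s t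
  | 0, _, _, s, _, _ => Subsingleton.elim s _ ▸ Rch.refl _ _
  | d + 1, u, v, s, t, h => by
    have h1 : Av u v (tail s) := h.comp succ
    have h2 := (h1.swap (h.2 0).2).symm
    have h3 := h2.swap (snd'_ne (t 0) (h.2 0).2)
    have r2 := tw_rch d (snd' (s 0) (t 0) v) v (s 0) _ h2
    conv => arg 3; rw [← cons_self_tail s]
    conv => arg 4; rw [← cons_self_tail t]
    refine (((rch_cons (s 0) (fun x hx => .inl ⟨rfl, .inl hx⟩) (tw_rch d (s 0) u v _ h1)).trans
      (rch_cons (s 0) (fun x hx => .inl ⟨rfl, .inr hx⟩) r2)).trans ?_).trans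
      (rch_cons (t 0) (fun x hx => .inr ⟨rfl, hx⟩) (rt_rch d _ _ _ _ h3))
    by_cases e : t 0 = s 0
    · rw [e]; exact Rch.refl _ _
    · refine Rch.step (adj_succ.2 (.inr ⟨Ne.symm e, rfl, fun i => ⟨(h3.2 i).2, ?_⟩⟩))
        (.inl ⟨rfl, .inr (r2.mem (tw_self _ _ _ _ _))⟩) (.inr ⟨rfl, rt_self _ _ _ _ _⟩)
      simpa [snd', e] using (h3.2 i).1

variable {q : ℕ}

theorem rt_cons (u v b : Fin p) (σ : Fin q → Fin p) (c : Fin q) (s : Fin d → Fin q)
    (t : Fin d → Fin p) (z : Fin (d + 1) → Fin p) : Rt (d + 1) u v (σ ∘ cons c s) (cons b t) z ↔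
      (z 0 = σ c ∧ (Tw d (σ c) u v (σ ∘ s) (tail z) ∨
        Tw d (snd' (σ c) b v) v (σ c) ((swap (σ c) u ∘ σ) ∘ s) (tail z))) ∨
      z 0 = b ∧ Rt d (snd' (σ c) b v) (σ c)
        ((swap (snd' (σ c) b v) v ∘ swap (σ c) u ∘ σ) ∘ s) t (tail z) := Iff.rfl

theorem tw_load (a u v : Fin p) {σ : Fin q → Fin p} (hσ : σ.Injective) (h : Av u v σ)
    (z : Fin d → Fin p) : ∑ s : Fin d → Fin q, ind (Tw d a u v (σ ∘ s) z) ≤ 1 := by
  classical
  rw [sum_ind]
  exact card_le_one.2 fun s hs s' hs' => hσ.comp_left (tw_uniq d a u v _ _ z (h.comp _) (h.comp _)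
    (mem_filter.1 hs).2 (mem_filter.1 hs').2)

theorem tw_total (a u v : Fin p) {σ : Fin q → Fin p} (hσ : σ.Injective) :
    ∑ s : Fin d → Fin q, ∑ z, ind (Tw d a u v (σ ∘ s) z) ≤ (q + 1) ^ d := by
  classical
  refine (sum_le_sum fun s _ => tw_card d a u v _).trans ?_
  have := prod_univ_sum (fun _ : Fin d => (univ : Finset (Fin q))) fun _ c => 1 + ind (σ c = a)
  simp only [Function.comp]
  rw [Fintype.piFinset_univ] at this
  rw [← this, prod_const, card_univ, Fintype.card_fin, sum_add_distrib, sum_ind]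
  refine Nat.pow_le_pow_left (add_le_add (by simp) (card_le_one.2 fun b hb c hc => hσ ?_)) _
  rw [(mem_filter.1 hb).2, (mem_filter.1 hc).2]

theorem rt_load : ∀ (d : ℕ) (u v : Fin (q + 2)) (σ : Fin q → Fin (q + 2)), σ.Injective →
    Av u v σ → ∀ z, ∑ s : Fin d → Fin q, ∑ t, ind (Rt d u v (σ ∘ s) t z) ≤ (q + 2) ^ (d + 1)
  | 0, _, _, _, _, _, _ => by simpa using (ind_le _).trans (by omega)
  | d + 1, u, v, σ, hσ, h, z => by
    classical
    rw [sum_cons2]
    have key : ∀ c b, ∑ s : Fin d → Fin q, ∑ t : Fin d → Fin (q + 2),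
        ind (Rt (d + 1) u v (σ ∘ cons c s) (cons b t) z) ≤
        ind (σ c = z 0) * (2 * (q + 2) ^ d) + ind (b = z 0) * (q + 2) ^ (d + 1) := fun c b => by
      have h2 := (h.swap (h.2 c).2).symm
      have h3 := h2.swap (snd'_ne b (h.2 c).2)
      have i2 := (swap (σ c) u).injective.comp hσ
      have l1 := tw_load (σ c) u v hσ h (tail z)
      have l2 := tw_load (snd' (σ c) b v) v (σ c) i2 h2 (tail z)
      have l3 := rt_load d _ _ _ ((swap (snd' (σ c) b v) v).injective.comp i2) h3 (tail z)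
      simp only [rt_cons]
      refine le_trans (sum_le_sum fun s _ => sum_le_sum fun t _ => (ind_or _ _).trans
        (add_le_add ((ind_and _ _).trans_le (Nat.mul_le_mul (ind_mono Eq.symm) (ind_or _ _)))
          ((ind_and _ _).trans_le (Nat.mul_le_mul_right _ (ind_mono Eq.symm))))) ?_
      simp only [sum_add_distrib, ← mul_sum, sum_const, card_univ, Fintype.card_fun,
        Fintype.card_fin, smul_eq_mul]
      refine add_le_add (Nat.mul_le_mul_left _ ?_) (Nat.mul_le_mul_left _ l3)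
      rw [mul_comm 2, ← mul_add]
      exact Nat.mul_le_mul_left _ (add_le_add l1 l2)
    refine (sum_le_sum fun c _ => sum_le_sum fun b _ => key c b).trans ?_
    have : ∑ c, ind (σ c = z 0) ≤ 1 := by
      rw [sum_ind]
      exact card_le_one.2 fun b hb c hc => hσ (by rw [(mem_filter.1 hb).2, (mem_filter.1 hc).2])
    simp only [sum_add_distrib, sum_ind_eq, sum_const, card_univ, Fintype.card_fin, smul_eq_mul]
    simp only [← mul_sum, ← sum_mul, pow_succ]
    nlinarith [Nat.mul_le_mul_right ((q + 2) * (2 * (q + 2) ^ d)) this]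

theorem rt_total : ∀ (d : ℕ) (u v : Fin (q + 2)) (σ : Fin q → Fin (q + 2)), σ.Injective →
    ∑ s : Fin d → Fin q, ∑ t, ∑ z, ind (Rt d u v (σ ∘ s) t z) ≤
      2 * (q + 2) ^ (d + 1) * (q + 1) ^ d
  | 0, _, _, _, _ => by simpa using (ind_le _).trans (by omega)
  | d + 1, u, v, σ, hσ => by
    rw [sum_cons2]
    have key : ∀ c b, ∑ s : Fin d → Fin q, ∑ t : Fin d → Fin (q + 2), ∑ z,
        ind (Rt (d + 1) u v (σ ∘ cons c s) (cons b t) z) ≤
        (q + 2) ^ d * (2 * (q + 1) ^ d) + 2 * (q + 2) ^ (d + 1) * (q + 1) ^ d := fun c b => by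
      have i2 := (swap (σ c) u).injective.comp hσ
      have l1 := tw_total (d := d) (σ c) u v hσ
      have l2 := tw_total (d := d) (snd' (σ c) b v) v (σ c) i2
      have l3 := rt_total d (snd' (σ c) b v) (σ c) _ ((swap (snd' (σ c) b v) v).injective.comp i2)
      simp only [rt_cons]
      refine le_trans (sum_le_sum fun s _ => sum_le_sum fun t _ => (sum_le_sum fun z _ =>
        ind_or _ _).trans (sum_add_distrib.trans_le (add_le_add ((sum_head _ _).trans_le
          ((sum_le_sum fun z _ => ind_or _ _).trans_eq sum_add_distrib)) (sum_head _ _).le))) ?_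
      simp only [sum_add_distrib, ← mul_sum, sum_const, card_univ, Fintype.card_fun,
        Fintype.card_fin, smul_eq_mul]
      refine add_le_add ?_ l3
      rw [two_mul, mul_add]
      exact add_le_add (Nat.mul_le_mul_left _ l1) (Nat.mul_le_mul_left _ l2)
    refine (sum_le_sum fun c _ => sum_le_sum fun b _ => key c b).trans ?_
    simp only [sum_const, card_univ, Fintype.card_fin, smul_eq_mul, pow_succ]
    nlinarith [Nat.zero_le ((q + 2) ^ d * (q + 1) ^ d * (q + 2))]

end Pool.Agent.Lib.MP_945667_co
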