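import Pool.Agent.Lib.MP_945667_co.H98Lower

/-!
The upper bound: the states are placed on a line in lexicographic order.
-/

namespace Pool.Agent.Lib.MP_945667_co

open Finset
open Fin hiding sum_const prod_const

variable {p q d : ℕ}

/-- The rank in the lexicographic order. -/
def rk : (d : ℕ) → (Fin d → Fin p) → ℕ
  | 0, _ => 0
  | d + 1, z => z 0 * p ^ d + rk d (tail z)

theorem rk_lt : ∀ (d : ℕ) (z : Fin d → Fin p), rk d z < p ^ d
  | 0, _ => Nat.one_pos
  | d + 1, z => by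
    have h1 := rk_lt d (tail z)
    have h2 := Nat.mul_le_mul_right (p ^ d) (Nat.succ_le_of_lt (z 0).2)
    rw [rk, pow_succ]
    nlinarith

theorem rk_le {u z : Fin (d + 1) → Fin p} (h : rk (d + 1) u ≤ rk (d + 1) z) :
    u 0 ≤ z 0 ∧ (u 0 = z 0 → rk d (tail u) ≤ rk d (tail z)) := by
  simp only [rk] at h
  refine ⟨not_lt.1 fun h1 => ?_, fun e => by rw [e] at h; omega⟩
  have h2 := Nat.mul_le_mul_right (p ^ d) (Nat.succ_le_of_lt h1)
  have h3 := rk_lt d (tail z)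
  nlinarith

theorem rk_inj : ∀ d : ℕ, (rk (p := p) d).Injective
  | 0 => fun _ _ _ => Subsingleton.elim _ _
  | d + 1 => fun u z h => by
    have e := le_antisymm (rk_le h.le).1 (rk_le h.ge).1
    rw [← cons_self_tail u, ← cons_self_tail z, e,
      rk_inj d (le_antisymm ((rk_le h.le).2 e) ((rk_le h.ge).2 e.symm))]

theorem sum_same (c : Fin p) (g : (Fin d → Fin p) × (Fin d → Fin p) → ℕ) :
    ∑ e : (Fin (d + 1) → Fin p) × (Fin (d + 1) → Fin p),
      ind (e.1 0 = c) * (ind (e.2 0 = c) * g (tail e.1, tail e.2)) = ∑ e, g e := by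
  rw [Fintype.sum_prod_type, sum_cons2, Fintype.sum_prod_type]
  simp only [cons_zero, tail_cons, ← mul_sum, sum_ind_eq]

theorem top_card : ∑ e : (Fin (d + 1) → Fin (q + 2)) × (Fin (d + 1) → Fin (q + 2)),
    ind ((hanoi _ _).Adj e.1 e.2 ∧ e.1 0 ≠ e.2 0) ≤ (q + 2) ^ 2 * q ^ d := by
  rw [Fintype.sum_prod_type, sum_cons2]
  refine le_trans (sum_le_sum fun a _ => sum_le_sum fun b _ => show _ ≤ q ^ d from ?_)
    (by simp [pow_two, mul_assoc])
  by_cases h : a = b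
  · simp [ind, h]
  refine le_trans (sum_le_sum fun x _ => (sum_le_sum fun y _ => (ind_mono (Q := y = x ∧
    ∀ i, x i ≠ a ∧ x i ≠ b) fun h1 => ?_).trans_eq (ind_and _ _)).trans_eq (sum_ind_eq _ _)) ?_
  · rcases adj_succ.1 h1.1 with h2 | h2
    exacts [(h h2.1).elim, ⟨h2.2.1.symm, h2.2.2⟩]
  · rw [sum_ind, show univ.filter (fun x : Fin d → Fin (q + 2) => ∀ i, x i ≠ a ∧ x i ≠ b) =
      Fintype.piFinset fun _ => {a, b}ᶜ by ext; simp, Fintype.card_piFinset_const, card_compl,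
      card_pair h]
    simp

/-- The edge `e` passes over the state `z`. -/
def Over (d : ℕ) (z : Fin d → Fin p) (e : (Fin d → Fin p) × (Fin d → Fin p)) : Prop :=
  (hanoi p d).Adj e.1 e.2 ∧ rk d e.1 ≤ rk d z ∧ rk d z ≤ rk d e.2

theorem over_card (hq : 2 ≤ q) : ∀ (d : ℕ) (z : Fin d → Fin (q + 2)),
    q * ∑ e, ind (Over d z e) ≤ 2 * (q + 2) ^ 2 * q ^ d
  | 0, z => by simp [Over, ind, hanoi]
  | d + 1, z => by
    have h1 : ∑ e, ind (Over (d + 1) z e) ≤ (q + 2) ^ 2 * q ^ d + ∑ e, ind (Over d (tail z) e) := by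
      rw [← sum_same (z 0) fun e => ind (Over d (tail z) e)]
      refine le_trans ?_ (Nat.add_le_add_right top_card _)
      simp only [← sum_add_distrib, ← ind_and]
      refine sum_le_sum fun e _ => (ind_mono fun ⟨h1, h2, h3⟩ => ?_).trans (ind_or _ _)
      rcases adj_succ.1 h1 with h4 | h4
      · have e1 := le_antisymm (rk_le h2).1 (h4.1 ▸ (rk_le h3).1)
        exact .inr ⟨e1, h4.1 ▸ e1, h4.2, (rk_le h2).2 e1, (rk_le h3).2 (h4.1 ▸ e1.symm)⟩
      · exact .inl ⟨h1, h4.1⟩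
    have h2 := over_card hq d (tail z)
    rw [pow_succ q]
    nlinarith [Nat.mul_le_mul_left q h1, Nat.mul_le_mul_left ((q + 2) ^ 2 * q ^ d) hq]

/-- Two edges interleave. -/
def Inter (d : ℕ) (e f : (Fin d → Fin p) × (Fin d → Fin p)) : Prop :=
  (hanoi p d).Adj e.1 e.2 ∧ (hanoi p d).Adj f.1 f.2 ∧ rk d e.1 ≤ rk d f.1 ∧
    rk d f.1 ≤ rk d e.2 ∧ rk d e.2 ≤ rk d f.2

theorem inter_card (hq : 2 ≤ q) : ∀ d : ℕ,
    ∑ e, ∑ f, ind (Inter (p := q + 2) d e f) ≤ 16 * (q + 2) ^ 2 * mag (q + 2) d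
  | 0 => by simp [Inter, ind, hanoi]
  | d + 1 => by
    have h0 : ∀ z, ∑ e, ind (Over (d + 1) z e) ≤ 2 * (q + 2) ^ 2 * q ^ d := fun z =>
      Nat.le_of_mul_le_mul_left ((over_card hq _ z).trans_eq (by ring)) (show 0 < q by omega)
    have h1 : ∀ e f, ind (Inter (p := q + 2) (d + 1) e f) ≤
        ind ((hanoi _ _).Adj e.1 e.2 ∧ e.1 0 ≠ e.2 0) * ind (Over _ e.2 f) +
        ind ((hanoi _ _).Adj f.1 f.2 ∧ f.1 0 ≠ f.2 0) * ind (Over _ f.1 e) +
        ∑ c, ind (e.1 0 = c) * (ind (e.2 0 = c) * (ind (f.1 0 = c) * (ind (f.2 0 = c) *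
          ind (Inter d (tail e.1, tail e.2) (tail f.1, tail f.2))))) := fun e f => by
      simp only [← ind_and]
      refine le_trans ?_ (Nat.add_le_add_left
        (single_le_sum (fun _ _ => Nat.zero_le _) (mem_univ (e.1 0))) _)
      refine (ind_mono fun ⟨h1, h2, h3, h4, h5⟩ => ?_).trans
        ((ind_or _ _).trans (Nat.add_le_add_right (ind_or _ _) _))
      rcases adj_succ.1 h1 with h6 | h6
      swap
      · exact .inl (.inl ⟨⟨h1, h6.1⟩, h2, h4, h5⟩)
      rcases adj_succ.1 h2 with h7 | h7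
      swap
      · exact .inl (.inr ⟨⟨h2, h7.1⟩, h1, h3, h4⟩)
      have e1 := le_antisymm (rk_le h3).1 (h6.1 ▸ (rk_le h4).1)
      exact .inr ⟨rfl, h6.1.symm, e1.symm, h7.1 ▸ e1.symm, h6.2, h7.2, (rk_le h3).2 e1,
        (rk_le h4).2 (h6.1 ▸ e1.symm), (rk_le h5).2 (h6.1 ▸ h7.1 ▸ e1)⟩
    have h2 : ∀ g : (Fin (d + 1) → Fin (q + 2)) × (Fin (d + 1) → Fin (q + 2)) → _, ∑ e, ∑ f,
        ind ((hanoi _ _).Adj e.1 e.2 ∧ e.1 0 ≠ e.2 0) * ind (Over _ (g e) f) ≤
          (q + 2) ^ 2 * q ^ d * (2 * (q + 2) ^ 2 * q ^ d) := fun g => by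
        simp only [← mul_sum]
        exact (sum_le_sum fun e _ => Nat.mul_le_mul_left _ (h0 _)).trans
          ((sum_mul _ _ _).symm.trans_le (Nat.mul_le_mul_right _ top_card))
    refine (sum_le_sum fun e _ => sum_le_sum fun f _ => h1 e f).trans ?_
    simp only [sum_add_distrib]
    refine (add_le_add (add_le_add (h2 _) (sum_comm.trans_le (h2 _))) (show _ ≤ (q + 2) *
      ∑ e, ∑ f, ind (Inter (p := q + 2) d e f) from le_of_eq ?_)).trans ?_
    · refine ((sum_congr rfl fun e _ => sum_comm).trans sum_comm).trans ?_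
      simp only [← mul_sum, fun c e => sum_same c fun f => ind (Inter (p := q + 2) d e f),
        fun c => sum_same c fun e => ∑ f, ind (Inter (p := q + 2) d e f)]
      simp
    · have h3 := Nat.mul_le_mul_left (q + 2) (inter_card hq d)
      have h4 := Nat.mul_le_mul_left (4 * (q + 2) ^ 2 * (q ^ d) ^ 2)
        (Nat.pow_le_pow_left (show q + 2 ≤ 2 * q by omega) 2)
      rw [mag_succ, pow_mul', pow_succ q]
      nlinarith

theorem order {p d : ℕ} (hp : 4 ≤ p) (hd : p < d) :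
    mag p d ≤ 3600 * p ^ 2 * crossingNumber (hanoi p d) ∧
      crossingNumber (hanoi p d) ≤ 16 * p ^ 2 * mag p d := by
  obtain ⟨D, hD⟩ := exists_drawing (hanoi p d) (fun z => rk d z)
    (Nat.cast_injective.comp (rk_inj d))
  constructor
  · obtain ⟨D', hD'⟩ := Nat.sInf_mem (s := Set.range fun D : Drawing (hanoi p d) => D.crossings)
      ⟨_, D, rfl⟩
    obtain ⟨C, h1, h2⟩ := D'.exists_k33
    have h3 := Nat.mul_le_mul_left (1800 * p ^ 2) h2
    rw [crossingNumber, ← hD']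
    nlinarith [lower hp hd h1]
  · obtain ⟨q, rfl⟩ := Nat.exists_eq_add_of_le' (show 2 ≤ p by omega)
    refine (Nat.sInf_le (Set.mem_range_self D)).trans (hD.trans (le_trans ?_ (inter_card (by omega) d)))
    rw [← sum_ind, Fintype.sum_prod_type]
    simp only [Nat.cast_le, Inter, le_refl]

end Pool.Agent.Lib.MP_945667_co
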